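import Pool.Agent.T6.H48.ZZ.Defs

/-!
Project ZZ (helper48), module CURVE: the curve `A = π`.
-/

set_option autoImplicit false

namespace Pool.Agent.T6.H48.ZZ

open Polynomial Set Filter Topology

namespace ModCURVE

theorem A_cont (D : Dat) {t : ℂ} (ht : 0 < t.im) : ContinuousAt D.A t := by
  unfold Dat.A
  apply ContinuousAt.add
  · apply tendsto_finsetSum
    intro j _
    have ha := D.ha j
    have h : (1 - (starRingEnd ℂ) t / (D.a j : ℂ)) ∈ Complex.slitPlane := by
      apply Or.inr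
      rw [Complex.sub_im, Complex.div_ofReal_im]
      simp only [Complex.one_im, Complex.conj_im, zero_sub]
      rw [neg_div, neg_neg]
      positivity
    have hc : ContinuousAt (fun t : ℂ => 1 - (starRingEnd ℂ) t / (D.a j : ℂ)) t :=
      continuousAt_const.sub (Complex.continuous_conj.continuousAt.div_const _)
    exact ContinuousAt.comp (f := fun t : ℂ => 1 - (starRingEnd ℂ) t / (D.a j : ℂ))
      (Complex.continuousAt_arg h) hc
  · exact continuousAt_const.mul (Complex.continuousAt_arg (Or.inr ht.ne'))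

theorem im_pos {x θ : ℝ} (hx : 0 < x) (h0 : 0 < θ) (h1 : θ < Real.pi) :
    0 < ((x : ℂ) * Complex.exp ((θ : ℂ) * Complex.I)).im := by
  rw [Complex.exp_mul_I]
  have h : ((x : ℂ) * (Complex.cos θ + Complex.sin θ * Complex.I)).im = x * Real.sin θ := by
    simp [Complex.sin_ofReal_re, Complex.cos_ofReal_im]
  rw [h]
  exact mul_pos hx (Real.sin_pos_of_pos_of_lt_pi h0 h1)

theorem bounds (D : Dat) (hM : D.Main) {θ : ℝ} (h : θ ∈ Ioo 0 D.thm) :
    θ < Real.pi ∧ (D.r : ℝ) * θ < Real.pi ∧ Real.pi < D.n * (Real.pi - θ) + D.r * θ := by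
  obtain ⟨h0, h1⟩ := h
  have hpi := Real.pi_pos
  have hn1 : (1 : ℝ) ≤ D.n := by exact_mod_cast D.hn
  unfold Dat.thm at h1
  by_cases hr : D.r = 0
  · rw [if_pos hr] at h1
    have hn : (0 : ℝ) < D.n := by linarith
    have h2 : 0 < Real.pi / D.n := by positivity
    have h3 : Real.pi / D.n * D.n = Real.pi := by field_simp
    refine ⟨by linarith, by rw [hr]; simpa using hpi, ?_⟩
    rw [hr]
    have h4 : D.n * θ < D.n * (Real.pi - Real.pi / D.n) := mul_lt_mul_of_pos_left h1 hn
    simp only [Nat.cast_zero, zero_mul, add_zero]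
    nlinarith
  · rw [if_neg hr] at h1
    have hr1 : (1 : ℝ) ≤ D.r := by exact_mod_cast Nat.one_le_iff_ne_zero.2 hr
    have hr0 : (0 : ℝ) < D.r := by linarith
    have h2 : D.r * θ < Real.pi := by
      rw [lt_div_iff₀ hr0] at h1
      linarith
    have h3 : θ < Real.pi := by nlinarith
    refine ⟨h3, h2, ?_⟩
    rcases Nat.lt_or_ge D.n 2 with hn | hn
    · have hn' : D.n = 1 := by have := D.hn; omega
      have hr2 : 2 ≤ D.r := by
        rcases hM with h | h
        · omega
        · exact h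
      have hr2' : (2 : ℝ) ≤ D.r := by exact_mod_cast hr2
      rw [hn']
      push_cast
      nlinarith
    · have hn2 : (2 : ℝ) ≤ D.n := by exact_mod_cast hn
      rcases le_or_gt (D.n : ℝ) D.r with h4 | h4
      · nlinarith
      · nlinarith

end ModCURVE

open ModCURVE in
theorem mCURVE (h : StmMONO) : StmCURVE := by
  intro D hM
  have hex : ∀ θ : ℝ, θ ∈ Ioo 0 D.thm → ∃ x : ℝ, 0 < x ∧
      D.A ((x : ℂ) * Complex.exp ((θ : ℂ) * Complex.I)) = Real.pi := by
    intro θ hθ
    obtain ⟨b1, b2, b3⟩ := bounds D hM hθ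
    obtain ⟨m1, m2, m3, m4⟩ := h D θ hθ.1 b1
    obtain ⟨x1, hx1, hx1'⟩ := ((m3.eventually_lt_const b2).and self_mem_nhdsWithin).exists
    obtain ⟨x2, hx2, hx2'⟩ := ((m4.eventually_const_lt b3).and (eventually_gt_atTop 0)).exists
    have hx1'' : 0 < x1 := hx1'
    have hlt : x1 < x2 := by
      by_contra hcon
      rw [not_lt] at hcon
      have := m1.monotoneOn (show x2 ∈ Ioi 0 from hx2') (show x1 ∈ Ioi 0 from hx1') hcon
      linarith
    have hc : ContinuousOn (fun x : ℝ => D.A ((x : ℂ) * Complex.exp ((θ : ℂ) * Complex.I)))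
        (Icc x1 x2) := by
      intro x hx
      have hx0 : 0 < x := lt_of_lt_of_le hx1'' hx.1
      have hA := A_cont D (im_pos hx0 hθ.1 b1)
      have hcc : ContinuousAt (fun x : ℝ => (x : ℂ) * Complex.exp ((θ : ℂ) * Complex.I)) x :=
        (Complex.continuous_ofReal.continuousAt).mul continuousAt_const
      exact (ContinuousAt.comp (f := fun x : ℝ => (x : ℂ) * Complex.exp ((θ : ℂ) * Complex.I))
        hA hcc).continuousWithinAt
    obtain ⟨x, hx, hx3⟩ := intermediate_value_Icc hlt.le hc ⟨hx1.le, hx2.le⟩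
    exact ⟨x, lt_of_lt_of_le hx1'' hx.1, hx3⟩
  choose! tau htau using hex
  refine ⟨tau, ?_, fun θ hθ => ⟨(htau θ hθ).1, (htau θ hθ).2⟩⟩
  intro θ hθ
  obtain ⟨b1, b2, b3⟩ := bounds D hM hθ
  obtain ⟨m1, -, -, -⟩ := h D θ hθ.1 b1
  have hpos := (htau θ hθ).1
  have hval := (htau θ hθ).2
  rw [Metric.continuousWithinAt_iff']
  intro ε hε
  obtain ⟨e, he⟩ : ∃ e, e = min ε (tau θ / 2) := ⟨_, rfl⟩
  have he0 : 0 < e := by rw [he]; exact lt_min hε (by linarith)
  have heε : e ≤ ε := by rw [he]; exact min_le_left _ _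
  have het : e < tau θ := by
    have : e ≤ tau θ / 2 := by rw [he]; exact min_le_right _ _
    linarith
  have hcont : ∀ x : ℝ, 0 < x → ContinuousAt (fun ϑ : ℝ =>
      D.A ((x : ℂ) * Complex.exp ((ϑ : ℂ) * Complex.I))) θ := by
    intro x hx
    have hA := A_cont D (im_pos hx hθ.1 b1)
    have hcc : ContinuousAt (fun ϑ : ℝ => (x : ℂ) * Complex.exp ((ϑ : ℂ) * Complex.I)) θ := by
      fun_prop
    exact ContinuousAt.comp (f := fun ϑ : ℝ => (x : ℂ) * Complex.exp ((ϑ : ℂ) * Complex.I))
      hA hcc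
  have c1 := (hcont (tau θ - e) (by linarith)).eventually_lt_const (u := Real.pi) (by
    have := m1 (show tau θ - e ∈ Ioi 0 from by simp only [mem_Ioi]; linarith)
      (show tau θ ∈ Ioi 0 from hpos) (by linarith)
    simp only at this
    rw [← hval]
    exact this)
  have c2 := (hcont (tau θ + e) (by linarith)).eventually_const_lt (u := Real.pi) (by
    have := m1 (show tau θ ∈ Ioi 0 from hpos)
      (show tau θ + e ∈ Ioi 0 from by simp only [mem_Ioi]; linarith) (by linarith)
    simp only at this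
    rw [← hval]
    exact this)
  filter_upwards [nhdsWithin_le_nhds c1, nhdsWithin_le_nhds c2, self_mem_nhdsWithin]
    with ϑ h1 h2 h3
  obtain ⟨d1, -, -⟩ := bounds D hM h3
  obtain ⟨n1, -, -, -⟩ := h D ϑ h3.1 d1
  have hp := (htau ϑ h3).1
  have hv := (htau ϑ h3).2
  have k1 : tau θ - e < tau ϑ := by
    by_contra hcon
    rw [not_lt] at hcon
    have := n1.monotoneOn (show tau ϑ ∈ Ioi 0 from hp)
      (show tau θ - e ∈ Ioi 0 from by simp only [mem_Ioi]; linarith) hcon
    linarith
  have k2 : tau ϑ < tau θ + e := by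
    by_contra hcon
    rw [not_lt] at hcon
    have := n1.monotoneOn (show tau θ + e ∈ Ioi 0 from by simp only [mem_Ioi]; linarith)
      (show tau ϑ ∈ Ioi 0 from hp) hcon
    linarith
  rw [Real.dist_eq, abs_lt]
  constructor <;> linarith

end Pool.Agent.T6.H48.ZZ
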