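import Pool.Agent.T6.H48.ZZ.Defs

/-! Module DAT of project ZZ: from `Q` to the data. -/

namespace Pool.Agent.T6.H48.ZZ

open Polynomial Set Filter Topology

theorem ModDAT.real_roots (Q : ℝ[X])
    (h : ∀ w ∈ (Q.map (algebraMap ℝ ℂ)).roots, w.im = 0 ∧ 0 < w.re) :
    ∃ t : Multiset ℝ, t.card = Q.natDegree ∧ (∀ x ∈ t, 0 < x) ∧
      Q = C Q.leadingCoeff * (t.map (fun x => X - C x)).prod := by
  classical
  have hsp : (Q.map (algebraMap ℝ ℂ)).Splits := IsAlgClosed.splits _
  set s := (Q.map (algebraMap ℝ ℂ)).roots with hs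
  have hcard : s.card = Q.natDegree := by
    have := hsp.natDegree_eq_card_roots
    rw [Polynomial.natDegree_map] at this
    exact this.symm
  refine ⟨s.map Complex.re, by rw [Multiset.card_map, hcard], ?_, ?_⟩
  · intro x hx
    rw [Multiset.mem_map] at hx
    obtain ⟨w, hw, rfl⟩ := hx
    exact (h w hw).2
  · apply Polynomial.map_injective (algebraMap ℝ ℂ) (algebraMap ℝ ℂ).injective
    have h1 := hsp.eq_prod_roots
    rw [h1, Polynomial.map_mul, Polynomial.map_C, Polynomial.leadingCoeff_map]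
    congr 1
    rw [Multiset.map_map, ← Polynomial.coe_mapRingHom, map_multiset_prod, Multiset.map_map]
    congr 1
    apply Multiset.map_congr rfl
    intro w hw
    have hw' := (h w hw).1
    simp only [Function.comp, Polynomial.coe_mapRingHom, Polynomial.map_sub, Polynomial.map_X,
      Polynomial.map_C]
    congr 2
    apply Complex.ext <;> simp [hw']

theorem mDAT : StmDAT := by
  classical
  intro Q r h0 hd h
  obtain ⟨t, ht1, ht2, ht3⟩ := ModDAT.real_roots Q h
  obtain ⟨l, rfl⟩ : ∃ l : List ℝ, (l : Multiset ℝ) = t := ⟨t.toList, Multiset.coe_toList t⟩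
  have hpos : ∀ j : Fin l.length, 0 < l.get j := fun j => ht2 _ (by
    rw [Multiset.mem_coe]; exact List.get_mem l j)
  have hprod : ((l : Multiset ℝ).map (fun x => (X - C x : ℝ[X]))).prod =
      ∏ j : Fin l.length, (X - C (l.get j)) := by
    rw [Multiset.map_coe, Multiset.prod_coe, ← Fin.prod_univ_fun_getElem]
    rfl
  have hfac : ∀ j : Fin l.length, (X - C (l.get j) : ℝ[X]) =
      C (- l.get j) * (1 - C (l.get j)⁻¹ * X) := by
    intro j
    have hne : l.get j ≠ 0 := (hpos j).ne'
    have : (C (l.get j) : ℝ[X]) * C (l.get j)⁻¹ = 1 := by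
      rw [← C_mul, mul_inv_cancel₀ hne, C_1]
    rw [C_neg]
    linear_combination (- X : ℝ[X]) * this
  have hQ : Q = C Q.leadingCoeff * ∏ j : Fin l.length,
      (C (- l.get j) * (1 - C (l.get j)⁻¹ * X)) := by
    conv_lhs => rw [ht3, hprod]
    congr 1
    exact Finset.prod_congr rfl fun j _ => hfac j
  have hc : Q.eval 0 = Q.leadingCoeff * ∏ j : Fin l.length, (- l.get j) := by
    conv_lhs => rw [hQ]
    rw [eval_mul, eval_C, eval_prod]
    congr 1
    apply Finset.prod_congr rfl
    intro j _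
    simp
  refine ⟨⟨l.length, fun j => l.get j, Q.eval 0, r, hpos, h0, ?_⟩, ?_, rfl⟩
  · rw [Multiset.coe_card] at ht1
    omega
  · show C (Q.eval 0) * ∏ j : Fin l.length, (1 - C (l.get j)⁻¹ * X) = Q
    conv_rhs => rw [hQ]
    rw [hc, C_mul, Finset.prod_mul_distrib, mul_assoc, map_prod]

end Pool.Agent.T6.H48.ZZ
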