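import Pool.Agent.T6.H48.ZZ.EstBase

/-!
# Module EST
-/

namespace Pool.Agent.T6.H48.ZZ

open Polynomial Set Filter Topology

namespace ModEST

theorem exists_m0 {q a b e K c : ℝ} (κ : ℕ) (hq0 : 0 < q) (hq1 : q < 1) (hc : 0 < c) (hK : 0 < K) :
    ∃ m₀ : ℕ, 1 ≤ m₀ ∧ ∀ m : ℕ, m₀ ≤ m →
      3 * a * (q ^ m * (m : ℝ) ^ κ) ≤ c * K ^ κ ∧ q ^ m * b ≤ e + 1 / 3 - e := by
  have h1 : Tendsto (fun m : ℕ => 3 * a * (q ^ m * (m : ℝ) ^ κ)) atTop (𝓝 0) := by
    have h := (tendsto_pow_const_mul_const_pow_of_abs_lt_one κ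
      (r := q) (by rw [abs_of_pos hq0]; exact hq1)).const_mul (3 * a)
    rw [mul_zero] at h
    refine h.congr fun m => ?_
    ring
  have h2 : Tendsto (fun m : ℕ => q ^ m * b) atTop (𝓝 0) := by
    have h := (tendsto_pow_atTop_nhds_zero_of_lt_one hq0.le hq1).mul_const b
    rwa [zero_mul] at h
  have h3 := (h1.eventually (ge_mem_nhds (show (0 : ℝ) < c * K ^ κ by positivity))).and
    ((h2.eventually (ge_mem_nhds (show (0 : ℝ) < 1 / 3 by norm_num))).and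
      (eventually_ge_atTop 1))
  obtain ⟨m₀, hm₀⟩ := eventually_atTop.1 h3
  refine ⟨max m₀ 1, le_max_right _ _, fun m hm => ?_⟩
  obtain ⟨h4, h5, -⟩ := hm₀ m ((le_max_left _ _).trans hm)
  exact ⟨h4, by linarith⟩

end ModEST

open ModEST in
theorem mEST (h : StmPF) (hz : StmZINJ) : StmEST := by
  intro D R tau θ₀ hcur hnear
  obtain ⟨ε, hε, ρ, hρ, q, hq0, hq1, B, hB, c, hc, κ, hnear⟩ := hnear
  obtain ⟨-, -, hroot⟩ := hz D tau hcur
  obtain ⟨K, hK, hK'⟩ := exists_K (d := (D.n : ℝ) + D.r) (by positivity) hB hc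
  -- bound of the numerator on the circle
  obtain ⟨M, hM⟩ := (isCompact_sphere (0 : ℂ) ρ).exists_bound_of_continuousOn
    (f := fun w => (R.map (algebraMap ℝ ℂ)).eval w)
    (R.map (algebraMap ℝ ℂ)).continuous.continuousOn
  have hM0 : 0 ≤ M := by
    refine (norm_nonneg _).trans (hM (ρ : ℂ) ?_)
    rw [mem_sphere_zero_iff_norm, Complex.norm_real, Real.norm_of_nonneg hρ.le]
  set M1 := max 1 B with hM1
  have hM11 : 1 ≤ M1 := le_max_left _ _
  have hM1B : B ≤ M1 := le_max_right _ _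
  have h1q : 0 < 1 - q := by linarith
  set d : ℝ := (D.n : ℝ) + D.r with hd
  have hd0 : 0 ≤ d := by positivity
  obtain ⟨m₀, hm₀1, hm₀⟩ := exists_m0 (a := B * M) (b := d * (q / (1 - q) * M1)) (e := 0) κ
    hq0 hq1 hc hK
  refine ⟨ε, hε, K, hK, m₀, fun m hm θ hθ h1 h2 => ?_⟩
  obtain ⟨hma, hmb⟩ := hm₀ m hm
  have hm0 : (0 : ℝ) < m := by exact_mod_cast (by omega : 0 < m)
  have hδ : 0 < |θ - θ₀| := lt_of_lt_of_le (by positivity) h1
  obtain ⟨hz0, hden, him, -⟩ := hroot θ hθ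
  obtain ⟨htq, hcirc, hnr, hFlow⟩ := hnear θ hθ hδ h2
  have htau := (hcur.2 θ hθ).1
  have hE0 := E_eval0 D hz0
  have hEne := E_ne_zero D hz0
  set z := D.zz tau θ with hzdef
  set t := pt tau θ with htdef
  set E : ℂ[X] := (D.dp z).map (algebraMap ℝ ℂ) with hEdef
  set Z : Finset ℂ := E.roots.toFinset.filter (fun b => ‖b‖ ≤ ρ) with hZdef
  have hrt : ∀ b : ℂ, b ∈ Z ↔ D.den z b = 0 ∧ ‖b‖ ≤ ρ := by
    intro b
    rw [hZdef, Finset.mem_filter, Multiset.mem_toFinset, mem_roots hEne, IsRoot.def, hEdef, eval_E]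
  have hder : ∀ b ∈ Z, E.derivative.eval b ≠ 0 := by
    intro b hb h0
    obtain ⟨hb1, hb2⟩ := (hrt b).1 hb
    have hL := root_L D hb1
    rw [← hEdef, h0, mul_zero, neg_zero] at hL
    exact (hnr b hb1 hb2).2.1 hL
  have hqρ : q * ρ < ρ := by nlinarith
  have hP := h E (R.map (algebraMap ℝ ℂ)) Z ρ (B * M) m hρ hE0
    (fun b hb => ⟨by rw [hEdef, eval_E]; exact ((hrt b).1 hb).1, hder b hb,
      ((hnr b ((hrt b).1 hb).1 ((hrt b).1 hb).2).1).trans_lt hqρ⟩)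
    (fun w hw1 hw2 => (hrt w).2 ⟨by rw [hEdef, eval_E] at hw2; exact hw2, hw1⟩)
    (fun w hw => by
      have h3 := hcirc w hw
      rw [norm_div, hEdef, eval_E]
      have h4 : 0 < ‖D.den z w‖ := lt_of_lt_of_le (inv_pos.2 hB) h3
      rw [div_le_iff₀ h4]
      have h5 := hM w (mem_sphere_zero_iff_norm.2 hw)
      have h6 : 1 ≤ B * ‖D.den z w‖ := by
        calc (1 : ℝ) = B * B⁻¹ := (mul_inv_cancel₀ hB.ne').symm
          _ ≤ B * ‖D.den z w‖ := mul_le_mul_of_nonneg_left h3 hB.le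
      calc ‖(R.map (algebraMap ℝ ℂ)).eval w‖ ≤ M * 1 := by rw [mul_one]; exact h5
        _ ≤ M * (B * ‖D.den z w‖) := mul_le_mul_of_nonneg_left h6 hM0
        _ = B * M * ‖D.den z w‖ := by ring)
  rw [← coeff_ofReal R (D.dp z) (dp_eval0 D hz0).ne' m] at hP
  have hsum : ∑ b ∈ Z, (R.map (algebraMap ℝ ℂ)).eval b / (E.derivative.eval b * b ^ (m + 1)) =
      -∑ b ∈ Z, D.F R b * (b⁻¹) ^ m := by
    rw [← Finset.sum_neg_distrib]
    exact Finset.sum_congr rfl fun b hb => term_eq D hz0 R ((hrt b).1 hb).1 m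
  rw [hsum, ← sub_eq_add_neg] at hP
  have hcard : (Z.card : ℝ) ≤ d := by
    have h3 : Z.card ≤ D.n + D.r :=
      (Finset.card_filter_le _ _).trans ((Multiset.toFinset_card_le _).trans
        ((card_roots' _).trans (natDegree_map_le.trans (dp_natDegree D _))))
    rw [hd]
    exact_mod_cast h3
  have htZ : t ∈ Z := (hrt t).2 ⟨hden, by rw [htdef, norm_pt htau]; linarith⟩
  have htcZ : (starRingEnd ℂ) t ∈ Z :=
    (hrt _).2 ⟨den_conj D hden, by rw [RCLike.norm_conj, htdef, norm_pt htau]; linarith⟩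
  -- the size of `F` at the roots
  have hFb : ∀ b ∈ Z, ‖D.F R b‖ ≤ M1 * ‖D.F R t‖ := by
    intro b hb
    obtain ⟨hb1, hb2⟩ := (hrt b).1 hb
    rcases (hnr b hb1 hb2).2.2 with h3 | h3 | ⟨h3, -⟩
    · rw [h3]
      exact le_mul_of_one_le_left (norm_nonneg _) hM11
    · rw [h3, F_conj, RCLike.norm_conj]
      exact le_mul_of_one_le_left (norm_nonneg _) hM11
    · exact h3.trans (mul_le_mul_of_nonneg_right hM1B (norm_nonneg _))
  have hres : ∑ b ∈ Z, ‖(R.map (algebraMap ℝ ℂ)).eval b / E.derivative.eval b‖ / (ρ - ‖b‖) ≤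
      d * (q / (1 - q) * M1) * ‖D.F R t‖ := by
    calc _ ≤ ∑ _b ∈ Z, q / (1 - q) * M1 * ‖D.F R t‖ := by
          refine Finset.sum_le_sum fun b hb => ?_
          obtain ⟨hb1, hb2⟩ := (hrt b).1 hb
          have hb3 := (hnr b hb1 hb2).1
          have hb0 := den_zero_ne D hz0 hb1
          have hL := root_L D hb1
          have he : (R.map (algebraMap ℝ ℂ)).eval b / E.derivative.eval b = -(b * D.F R b) := by
            have hd' := hder b hb
            unfold Dat.F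
            rw [hL, eval_map_algebraMap, ← hEdef]
            field_simp
          rw [he, norm_neg, norm_mul]
          have h4 : (1 - q) * ρ ≤ ρ - ‖b‖ := by linarith
          have h5 : 0 < (1 - q) * ρ := by positivity
          rw [div_le_iff₀ (h5.trans_le h4)]
          calc ‖b‖ * ‖D.F R b‖ ≤ (q * ρ) * (M1 * ‖D.F R t‖) :=
                mul_le_mul hb3 (hFb b hb) (norm_nonneg _) (by positivity)
            _ = q / (1 - q) * M1 * ‖D.F R t‖ * ((1 - q) * ρ) := by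
                field_simp
            _ ≤ _ := mul_le_mul_of_nonneg_left h4 (by positivity)
      _ = (Z.card : ℝ) * (q / (1 - q) * M1 * ‖D.F R t‖) := by
          rw [Finset.sum_const, nsmul_eq_mul]
      _ ≤ d * (q / (1 - q) * M1 * ‖D.F R t‖) :=
          mul_le_mul_of_nonneg_right hcard (by positivity)
      _ = _ := by ring
  have hsp := split D R Z t m
    (B * ‖D.F R t‖ * ((tau θ)⁻¹ ^ m * Real.exp (-(c * (m * |θ - θ₀|))))) d htZ htcZ him.ne'
    (by positivity)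
    (fun b hb => by
      rcases (hnr b ((hrt b).1 hb).1 ((hrt b).1 hb).2).2.2 with h3 | h3 | ⟨h3, h4⟩
      · exact Or.inl h3
      · exact Or.inr (Or.inl h3)
      · refine Or.inr (Or.inr ?_)
        rw [norm_mul, norm_pow, norm_inv]
        exact other htau h3 h4 (by positivity)) hcard
  have hx : K ≤ m * |θ - θ₀| := by
    have := h1
    rw [div_le_iff₀ hm0] at this
    linarith
  have h5 := hK' _ hx
  -- comparison of the radii
  have hρt : (ρ⁻¹) ^ m ≤ q ^ m * (tau θ)⁻¹ ^ m := by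
    rw [← mul_pow]
    refine pow_le_pow_left₀ (inv_nonneg.2 hρ.le) ?_ m
    rw [inv_eq_one_div, div_le_iff₀ hρ, ← div_eq_mul_inv, div_mul_eq_mul_div, le_div_iff₀ htau]
    linarith
  -- lower bound of `F`
  have hlow : 3 * (B * M) * q ^ m ≤ ‖D.F R t‖ := by
    have h6 : c * (K / m) ^ κ ≤ ‖D.F R t‖ :=
      (mul_le_mul_of_nonneg_left (pow_le_pow_left₀ (by positivity) h1 κ) hc.le).trans hFlow
    refine le_trans ?_ h6
    rw [div_pow, ← mul_div_assoc, le_div_iff₀ (by positivity)]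
    calc 3 * (B * M) * q ^ m * (m : ℝ) ^ κ = 3 * (B * M) * (q ^ m * (m : ℝ) ^ κ) := by ring
      _ ≤ c * K ^ κ := hma
  have hT : 0 ≤ (tau θ)⁻¹ ^ m := by positivity
  have key1 : (ρ⁻¹) ^ m * (B * M + ∑ b ∈ Z,
      ‖(R.map (algebraMap ℝ ℂ)).eval b / E.derivative.eval b‖ / (ρ - ‖b‖)) ≤
      2 / 3 * (‖D.F R t‖ * (tau θ)⁻¹ ^ m) := by
    have hs0 : 0 ≤ B * M + d * (q / (1 - q) * M1) * ‖D.F R t‖ := by positivity
    calc _ ≤ (ρ⁻¹) ^ m * (B * M + d * (q / (1 - q) * M1) * ‖D.F R t‖) :=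
          mul_le_mul_of_nonneg_left (by linarith) (by positivity)
      _ ≤ (q ^ m * (tau θ)⁻¹ ^ m) * (B * M + d * (q / (1 - q) * M1) * ‖D.F R t‖) :=
          mul_le_mul_of_nonneg_right hρt hs0
      _ = (tau θ)⁻¹ ^ m * ((B * M) * q ^ m + (q ^ m * (d * (q / (1 - q) * M1))) * ‖D.F R t‖) := by
          ring
      _ ≤ (tau θ)⁻¹ ^ m * (‖D.F R t‖ / 3 + 1 / 3 * ‖D.F R t‖) := by
          refine mul_le_mul_of_nonneg_left (add_le_add (by linarith) ?_) hT
          exact mul_le_mul_of_nonneg_right (by linarith) (norm_nonneg _)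
      _ = _ := by ring
  have key2 : d * (B * ‖D.F R t‖ * ((tau θ)⁻¹ ^ m * Real.exp (-(c * (m * |θ - θ₀|))))) ≤
      1 / 3 * (‖D.F R t‖ * (tau θ)⁻¹ ^ m) := by
    calc _ = (d * B * Real.exp (-(c * (m * |θ - θ₀|)))) * (‖D.F R t‖ * (tau θ)⁻¹ ^ m) := by ring
      _ ≤ _ := mul_le_mul_of_nonneg_right h5 (by positivity)
  have htri : |D.P R m z - 2 * (D.F R t * (t⁻¹) ^ m).re| =
      ‖((D.P R m z : ℝ) : ℂ) - ((2 * (D.F R t * (t⁻¹) ^ m).re : ℝ) : ℂ)‖ := by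
    rw [← Complex.ofReal_sub, Complex.norm_real, Real.norm_eq_abs]
  rw [htri]
  have hPd : ((D.P R m z : ℝ) : ℂ) = ((PowerSeries.coeff m ((R : PowerSeries ℝ) *
      ((D.dp z : ℝ[X]) : PowerSeries ℝ)⁻¹) : ℝ) : ℂ) := rfl
  calc _ = ‖(((D.P R m z : ℝ) : ℂ) - ∑ b ∈ Z, D.F R b * (b⁻¹) ^ m) +
        (∑ b ∈ Z, D.F R b * (b⁻¹) ^ m - ((2 * (D.F R t * (t⁻¹) ^ m).re : ℝ) : ℂ))‖ := by
        congr 1; ring
    _ ≤ _ := norm_add_le _ _
    _ ≤ 2 / 3 * (‖D.F R t‖ * (tau θ)⁻¹ ^ m) + 1 / 3 * (‖D.F R t‖ * (tau θ)⁻¹ ^ m) := by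
        rw [hPd]
        exact add_le_add (hP.trans key1) (hsp.trans key2)
    _ = ‖D.F R t‖ * (tau θ)⁻¹ ^ m := by ring
    _ = ‖D.F R t * (t⁻¹) ^ m‖ := (norm_term D R htau m).symm

end Pool.Agent.T6.H48.ZZ
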