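import Pool.Agent.T6.H48.ZZ.EstBase

/-!
# Module ESTZ
-/

namespace Pool.Agent.T6.H48.ZZ

open Polynomial Set Filter Topology

open ModEST in
theorem mESTZ (h : StmPFZ) (hz : StmZINJ) : StmESTZ := by
  intro D R tau θ₀ hcur hnear
  obtain ⟨ε, hε, B, hB, c, hc, hnear⟩ := hnear
  obtain ⟨-, -, hroot⟩ := hz D tau hcur
  obtain ⟨K, hK, hK'⟩ := exists_K (d := (D.n : ℝ) + D.r) (by positivity) hB hc
  refine ⟨ε, hε, K, hK, R.natDegree + 1, fun m hm θ hθ h1 h2 => ?_⟩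
  have hm0 : (0 : ℝ) < m := by exact_mod_cast (by omega : 0 < m)
  have hδ : 0 < |θ - θ₀| := lt_of_lt_of_le (by positivity) h1
  obtain ⟨hz0, hden, him, -⟩ := hroot θ hθ
  have hnr := hnear θ hθ hδ h2
  have htau := (hcur.2 θ hθ).1
  have hE0 := E_eval0 D hz0
  have hEne := E_ne_zero D hz0
  have hrt : ∀ b : ℂ, b ∈ ((D.dp (D.zz tau θ)).map (algebraMap ℝ ℂ)).roots.toFinset ↔
      D.den (D.zz tau θ) b = 0 := by
    intro b
    rw [Multiset.mem_toFinset, mem_roots hEne, IsRoot.def, eval_E]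
  have hder : ∀ b : ℂ, ((D.dp (D.zz tau θ)).map (algebraMap ℝ ℂ)).eval b = 0 →
      ((D.dp (D.zz tau θ)).map (algebraMap ℝ ℂ)).derivative.eval b ≠ 0 := by
    intro b hb h0
    rw [eval_E] at hb
    have hL := root_L D hb
    rw [h0, mul_zero, neg_zero] at hL
    exact (hnr b hb).1 hL
  have hP := h ((D.dp (D.zz tau θ)).map (algebraMap ℝ ℂ)) (R.map (algebraMap ℝ ℂ)) m hE0
    ((natDegree_map_le).trans_lt (by omega)) hder
  rw [← coeff_ofReal R (D.dp (D.zz tau θ)) (dp_eval0 D hz0).ne' m, ← Finset.sum_neg_distrib] at hP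
  have hP2 : ((D.P R m (D.zz tau θ) : ℝ) : ℂ) =
      ∑ b ∈ ((D.dp (D.zz tau θ)).map (algebraMap ℝ ℂ)).roots.toFinset,
        D.F R b * (b⁻¹) ^ m := by
    refine hP.trans (Finset.sum_congr rfl fun b hb => ?_)
    rw [term_eq D hz0 R ((hrt b).1 hb) m, neg_neg]
  have hcard : ((((D.dp (D.zz tau θ)).map (algebraMap ℝ ℂ)).roots.toFinset.card : ℕ) : ℝ) ≤
      (D.n : ℝ) + D.r := by
    have h3 : ((D.dp (D.zz tau θ)).map (algebraMap ℝ ℂ)).roots.toFinset.card ≤ D.n + D.r :=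
      (Multiset.toFinset_card_le _).trans ((card_roots' _).trans
        (natDegree_map_le.trans (dp_natDegree D _)))
    exact_mod_cast h3
  have hsp := split D R _ (pt tau θ) m
    (B * ‖D.F R (pt tau θ)‖ * ((tau θ)⁻¹ ^ m * Real.exp (-(c * (m * |θ - θ₀|)))))
    ((D.n : ℝ) + D.r) ((hrt _).2 hden) ((hrt _).2 (den_conj D hden)) him.ne' (by positivity)
    (fun b hb => by
      rcases (hnr b ((hrt b).1 hb)).2 with h3 | h3 | ⟨h3, h4⟩
      · exact Or.inl h3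
      · exact Or.inr (Or.inl h3)
      · refine Or.inr (Or.inr ?_)
        rw [norm_mul, norm_pow, norm_inv]
        exact other htau h3 h4 (by positivity)) hcard
  rw [← hP2, ← Complex.ofReal_sub, Complex.norm_real, Real.norm_eq_abs] at hsp
  refine hsp.trans ?_
  rw [norm_term D R htau]
  have hx : K ≤ m * |θ - θ₀| := by
    rw [div_le_iff₀ hm0] at h1
    linarith
  have h5 := hK' _ hx
  calc ((D.n : ℝ) + D.r) *
        (B * ‖D.F R (pt tau θ)‖ * ((tau θ)⁻¹ ^ m * Real.exp (-(c * (m * |θ - θ₀|)))))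
      = (((D.n : ℝ) + D.r) * B * Real.exp (-(c * (m * |θ - θ₀|)))) *
          (‖D.F R (pt tau θ)‖ * (tau θ)⁻¹ ^ m) := by ring
    _ ≤ 1 * (‖D.F R (pt tau θ)‖ * (tau θ)⁻¹ ^ m) :=
        mul_le_mul_of_nonneg_right (h5.trans (by norm_num)) (by positivity)
    _ = _ := one_mul _

end Pool.Agent.T6.H48.ZZ
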