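import Pool.Agent.T6.H48.ZZ.Basic

namespace Pool.Agent.T6.H48.ZZ

open Polynomial Set Filter Topology

namespace ModGAPLB

theorem seg_im_nonneg {t b : ℂ} (ht : 0 ≤ t.im) (hb : 0 ≤ b.im) {s : ℝ} (hs : s ∈ Icc (0:ℝ) 1) :
    0 ≤ (seg t b s).im := by
  unfold seg
  rw [Complex.exp_im]
  refine mul_nonneg (Real.exp_pos _).le ?_
  have h1 : ((1 - (s : ℂ)) * Complex.log t + (s : ℂ) * Complex.log b).im =
      (1 - s) * Complex.arg t + s * Complex.arg b := by
    have : (1 - (s : ℂ)) = ((1 - s : ℝ) : ℂ) := by push_cast; ring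
    rw [this, Complex.add_im, Complex.im_ofReal_mul, Complex.im_ofReal_mul, Complex.log_im,
      Complex.log_im]
  rw [h1]
  have ha := Complex.arg_nonneg_iff.2 ht
  have hb' := Complex.arg_nonneg_iff.2 hb
  have h2 := Complex.arg_le_pi t
  have h3 := Complex.arg_le_pi b
  refine Real.sin_nonneg_of_nonneg_of_le_pi ?_ ?_
  · have := hs.1; have := hs.2
    have h4 : 0 ≤ 1 - s := by linarith
    positivity
  · have h0 := hs.1
    have h4 : 0 ≤ 1 - s := by linarith [hs.2]
    have h5 := mul_le_mul_of_nonneg_left h2 h4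
    have h6 := mul_le_mul_of_nonneg_left h3 h0
    linarith

end ModGAPLB

open ModGAPLB in
theorem mGAPLB (h : StmGAP) : StmGAPLB := by
  intro D z t b hz ht hb hdt hdb hAt hne hseg
  obtain ⟨hlt, h3, hAb, hc, hid, hgap⟩ := h D z t b hz ht hb hdt hdb hAt hne hseg
  have hpi := Real.pi_pos
  have hdA : 0 < D.A b - D.A t := by rw [hAt]; linarith
  have hcim : ContinuousOn (fun s : ℝ => (D.S (seg t b s)).im) (Icc 0 1) :=
    Complex.continuous_im.comp_continuousOn hc
  constructor
  · intro σ hσ hlow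
    have hint1 : IntervalIntegrable (fun s : ℝ => (D.S (seg t b s)).im) MeasureTheory.volume 0 (1/2) := by
      apply ContinuousOn.intervalIntegrable
      rw [uIcc_of_le (by norm_num)]
      exact hcim.mono (Icc_subset_Icc le_rfl (by norm_num))
    have hint2 : IntervalIntegrable (fun s : ℝ => (D.S (seg t b s)).im) MeasureTheory.volume (1/2) 1 := by
      apply ContinuousOn.intervalIntegrable
      rw [uIcc_of_le (by norm_num)]
      exact hcim.mono (Icc_subset_Icc (by norm_num) le_rfl)
    have hI : σ / 2 ≤ ∫ s in (0:ℝ)..1, (D.S (seg t b s)).im := by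
      rw [← intervalIntegral.integral_add_adjacent_intervals hint1 hint2]
      have h1 : σ / 2 ≤ ∫ s in (0:ℝ)..(1/2), (D.S (seg t b s)).im := by
        have h2 : ∫ s in (0:ℝ)..(1/2), σ = σ / 2 := by
          rw [intervalIntegral.integral_const]
          simp
          ring
        rw [← h2]
        refine intervalIntegral.integral_mono_on (by norm_num) (by simp) hint1 ?_
        intro s hs
        exact hlow s hs
      have h3 : 0 ≤ ∫ s in ((1/2):ℝ)..1, (D.S (seg t b s)).im := by
        refine intervalIntegral.integral_nonneg (by norm_num) ?_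
        intro s hs
        exact D.S_im_nonneg (seg_im_nonneg ht hb ⟨by linarith [hs.1], hs.2⟩)
      linarith
    rw [hgap]
    have hN : 0 ≤ ‖Complex.log b - Complex.log t‖ ^ 2 := by positivity
    have hnr : 0 < ((D.n : ℝ) + D.r) * Real.pi := by linarith
    have hle : D.A b - D.A t ≤ ((D.n : ℝ) + D.r) * Real.pi := by rw [hAt]; linarith
    calc ‖Complex.log b - Complex.log t‖ ^ 2 * σ / (2 * Real.pi * ((D.n : ℝ) + D.r))
        = ‖Complex.log b - Complex.log t‖ ^ 2 * (σ / 2) / (((D.n : ℝ) + D.r) * Real.pi) := by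
          rw [mul_div_assoc, mul_div_assoc]
          congr 1
          rw [div_div]
          congr 1
          ring
      _ ≤ ‖Complex.log b - Complex.log t‖ ^ 2 * (∫ s in (0:ℝ)..1, (D.S (seg t b s)).im) /
            (((D.n : ℝ) + D.r) * Real.pi) := by gcongr
      _ ≤ _ := by
          refine div_le_div_of_nonneg_left (mul_nonneg hN (by linarith)) hdA hle
  · intro M hM
    have h1 : ‖∫ s in (0:ℝ)..1, D.S (seg t b s)‖ ≤ M * |(1:ℝ) - 0| := by
      apply intervalIntegral.norm_integral_le_of_norm_le_const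
      intro s hs
      rw [uIoc_of_le (by norm_num)] at hs
      exact hM s ⟨hs.1.le, hs.2⟩
    rw [sub_zero, abs_one, mul_one] at h1
    have h2 : ‖Complex.log b - Complex.log t‖ * ‖∫ s in (0:ℝ)..1, D.S (seg t b s)‖ =
        D.A b - D.A t := by
      rw [← norm_mul, hid, norm_mul, Complex.norm_I, one_mul, Complex.norm_real,
        Real.norm_eq_abs, abs_of_pos hdA]
    calc 2 * Real.pi ≤ D.A b - D.A t := by rw [hAt]; linarith
      _ = ‖Complex.log b - Complex.log t‖ * ‖∫ s in (0:ℝ)..1, D.S (seg t b s)‖ := h2.symm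
      _ ≤ ‖Complex.log b - Complex.log t‖ * M := by gcongr
      _ = _ := mul_comm _ _

end Pool.Agent.T6.H48.ZZ
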