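import Pool.Agent.T6.H48.ZZ.Defs

/-!
Project ZZ (helper48), module GLOB: from local to global counting.
-/

set_option autoImplicit false

namespace Pool.Agent.T6.H48.ZZ

open Polynomial Set Filter Topology

namespace ModGLOB

theorem good_trans {Zs : ℕ → Set ℝ} {a b c : ℝ} (hab : a ≤ b) (hbc : b ≤ c)
    (h1 : Good Zs a b) (h2 : Good Zs b c) : Good Zs a c := by
  obtain ⟨K1, h1⟩ := h1
  obtain ⟨K2, h2⟩ := h2
  refine ⟨K1 + K2, fun m => ?_⟩
  obtain ⟨Z1, hZ1, hc1⟩ := h1 m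
  obtain ⟨Z2, hZ2, hc2⟩ := h2 m
  refine ⟨Z1 ∪ Z2, ?_, ?_⟩
  · intro x hx
    rcases Finset.mem_union.1 hx with h | h
    · obtain ⟨e1, e2, e3⟩ := hZ1 x h
      exact ⟨e1, e2, by linarith⟩
    · obtain ⟨e1, e2, e3⟩ := hZ2 x h
      exact ⟨e1, by linarith, e3⟩
  · have hd : Disjoint Z1 Z2 := by
      rw [Finset.disjoint_left]
      intro x hx1 hx2
      have e1 := (hZ1 x hx1).2.2
      have e2 := (hZ2 x hx2).2.1
      linarith
    rw [Finset.card_union_of_disjoint hd]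
    push_cast
    have e : (m : ℝ) * (c - a) / Real.pi = (m : ℝ) * (b - a) / Real.pi +
        (m : ℝ) * (c - b) / Real.pi := by ring
    rw [e]
    linarith

end ModGLOB

open ModGLOB in
theorem mGLOB : StmGLOB := by
  intro T Zs hT h
  obtain ⟨S, hS⟩ : ∃ S : Set ℝ, S = {x | x ∈ Icc 0 T ∧ (x = 0 ∨ Good Zs 0 x)} := ⟨_, rfl⟩
  have h0 : (0 : ℝ) ∈ S := by rw [hS]; exact ⟨⟨le_rfl, hT.le⟩, Or.inl rfl⟩
  have hbdd : BddAbove S := ⟨T, fun x hx => by rw [hS] at hx; exact hx.1.2⟩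
  obtain ⟨s, hs⟩ : ∃ s, s = sSup S := ⟨_, rfl⟩
  have hs0 : 0 ≤ s := by rw [hs]; exact le_csSup hbdd h0
  have hsT : s ≤ T := by
    rw [hs]
    exact csSup_le ⟨0, h0⟩ (fun x hx => by rw [hS] at hx; exact hx.1.2)
  obtain ⟨ε, hε, hr, hl⟩ := h s ⟨hs0, hsT⟩
  have hsS : s = 0 ∨ Good Zs 0 s := by
    rcases hs0.eq_or_lt with h1 | h1
    · exact Or.inl h1.symm
    · right
      obtain ⟨x, hx, hxs⟩ := exists_lt_of_lt_csSup ⟨0, h0⟩ (show s - ε < sSup S by
        rw [← hs]; linarith)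
      have hxle : x ≤ s := by rw [hs]; exact le_csSup hbdd hx
      rw [hS] at hx
      rcases hxle.eq_or_lt with h2 | h2
      · rcases hx.2 with h3 | h3
        · linarith
        · rw [← h2]; exact h3
      · have h4 := hl x h2 hxs hx.1.1
        rcases hx.2 with h3 | h3
        · rw [h3] at h4; exact h4
        · exact good_trans hx.1.1 h2.le h3 h4
  rcases hsT.eq_or_lt with h1 | h1
  · rcases hsS with h2 | h2
    · linarith
    · rw [← h1]; exact h2
  · exfalso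
    obtain ⟨b, hb⟩ : ∃ b, b = min (s + ε / 2) T := ⟨_, rfl⟩
    have hsb : s < b := by rw [hb]; exact lt_min (by linarith) h1
    have hbT : b ≤ T := by rw [hb]; exact min_le_right _ _
    have hbe : b < s + ε := by
      have : b ≤ s + ε / 2 := by rw [hb]; exact min_le_left _ _
      linarith
    have h2 := hr b hsb hbe hbT
    have h3 : Good Zs 0 b := by
      rcases hsS with h4 | h4
      · rw [h4] at h2; exact h2
      · exact good_trans hs0 hsb.le h4 h2
    have h5 : b ∈ S := by rw [hS]; exact ⟨⟨by linarith, hbT⟩, Or.inr h3⟩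
    have h6 : b ≤ s := by rw [hs]; exact le_csSup hbdd h5
    linarith

end Pool.Agent.T6.H48.ZZ
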