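import Pool.Agent.T6.H48.ZZ.LIM2

/-!
Project ZZ (helper48), module LIM1: the limit at `θ = π`, `r = 1`.
-/

set_option autoImplicit false

namespace Pool.Agent.T6.H48.ZZ

open Polynomial Set Filter Topology

namespace ModLIM1

/-- `∑ x / (a j + x)` -/
noncomputable def dd (D : Dat) (x : ℝ) : ℝ := ∑ j, x / (D.a j + x)

theorem dd_mono (D : Dat) {x y : ℝ} (hx : 0 ≤ x) (hxy : x < y) : dd D x < dd D y := by
  have hne : (Finset.univ : Finset (Fin D.n)).Nonempty := by
    have := D.hn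
    exact ⟨⟨0, by omega⟩, Finset.mem_univ _⟩
  unfold dd
  refine Finset.sum_lt_sum_of_nonempty hne (fun j _ => ?_)
  have ha := D.ha j
  rw [div_lt_div_iff₀ (by linarith) (by linarith)]
  nlinarith

theorem dd_cont (D : Dat) : ContinuousOn (dd D) (Ici 0) := by
  unfold dd
  refine continuousOn_finsetSum _ (fun j _ => ?_)
  refine ContinuousOn.div continuousOn_id (by fun_prop) ?_
  intro x hx
  have ha := D.ha j
  have hx' : (0 : ℝ) ≤ x := hx
  linarith

theorem dd_zero (D : Dat) : dd D 0 = 0 := by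
  unfold dd
  simp

theorem dd_top (D : Dat) : Tendsto (dd D) atTop (𝓝 (D.n : ℝ)) := by
  have h1 : Tendsto (dd D) atTop (𝓝 (∑ _j : Fin D.n, (1 : ℝ))) := by
    unfold dd
    refine tendsto_finsetSum _ (fun j _ => ?_)
    have ha := D.ha j
    have h2 : Tendsto (fun x : ℝ => 1 - D.a j / (D.a j + x)) atTop (𝓝 (1 - 0)) := by
      apply Tendsto.sub tendsto_const_nhds
      exact tendsto_const_nhds.div_atTop (tendsto_atTop_add_const_left _ _ tendsto_id)
    rw [sub_zero] at h2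
    refine h2.congr' ?_
    filter_upwards [eventually_gt_atTop 0] with x hx
    field_simp
    ring
  simpa using h1

theorem exists_x₀ (D : Dat) (hn : 2 ≤ D.n) : ∃ x₀ : ℝ, 0 < x₀ ∧ dd D x₀ = 1 := by
  have hn2 : (2 : ℝ) ≤ D.n := by exact_mod_cast hn
  obtain ⟨y, hy1, hy2⟩ := (((dd_top D).eventually_const_lt (u := 1) (by linarith)).and
    (eventually_gt_atTop 0)).exists
  have hc : ContinuousOn (dd D) (Icc 0 y) := (dd_cont D).mono (fun x hx => hx.1)
  obtain ⟨x, hx, hx1⟩ := intermediate_value_Icc hy2.le hc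
    (show (1 : ℝ) ∈ Icc (dd D 0) (dd D y) from ⟨by rw [dd_zero]; norm_num, hy1.le⟩)
  refine ⟨x, ?_, hx1⟩
  rcases hx.1.lt_or_eq with h | h
  · exact h
  · rw [← h, dd_zero] at hx1
    norm_num at hx1

theorem S_eq (D : Dat) (hr : D.r = 1) (x : ℝ) : D.S (-(x : ℂ)) = ((1 - dd D x : ℝ) : ℂ) := by
  unfold Dat.S dd
  rw [hr]
  push_cast
  rw [sub_eq_add_neg, ← Finset.sum_neg_distrib]
  congr 1
  refine Finset.sum_congr rfl fun j _ => ?_
  rw [sub_neg_eq_add, neg_div]

/-- the argument on the ray `π - φ` minus `π` -/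
noncomputable def f (D : Dat) (x φ : ℝ) : ℝ :=
  ∑ j, Real.arctan (Real.sin φ / (D.a j / x + Real.cos φ)) - φ

theorem f_deriv (D : Dat) {x : ℝ} (hx : 0 < x) : HasDerivAt (f D x) (dd D x - 1) 0 := by
  unfold f
  apply HasDerivAt.sub _ (hasDerivAt_id _)
  unfold dd
  apply HasDerivAt.fun_sum
  intro j _
  have ha := D.ha j
  have h0 : D.a j / x + Real.cos 0 ≠ 0 := by
    rw [Real.cos_zero]; positivity
  have h1 : HasDerivAt (fun φ : ℝ => Real.sin φ / (D.a j / x + Real.cos φ))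
      ((Real.cos 0 * (D.a j / x + Real.cos 0) - Real.sin 0 * (-Real.sin 0)) /
        (D.a j / x + Real.cos 0) ^ 2) 0 :=
    (Real.hasDerivAt_sin 0).div ((Real.hasDerivAt_cos 0).const_add _) h0
  have h2 := h1.arctan
  have h3 : 1 / (1 + (Real.sin 0 / (D.a j / x + Real.cos 0)) ^ 2) *
      ((Real.cos 0 * (D.a j / x + Real.cos 0) - Real.sin 0 * -Real.sin 0) /
        (D.a j / x + Real.cos 0) ^ 2) = x / (D.a j + x) := by
    rw [Real.sin_zero, Real.cos_zero]
    field_simp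
    ring
  rw [h3] at h2
  exact h2

theorem f_zero (D : Dat) (x : ℝ) : f D x 0 = 0 := by
  unfold f
  simp

theorem A_eq (D : Dat) (hr : D.r = 1) {x φ : ℝ} (hx : 0 < x) (h0 : 0 < φ) (h1 : φ < Real.pi / 2) :
    D.A ((x : ℂ) * Complex.exp (((Real.pi - φ : ℝ) : ℂ) * Complex.I)) = Real.pi + f D x φ := by
  have hpi := Real.pi_pos
  rw [ModMONO.A_eq D (by linarith) (by linarith) hx, hr]
  unfold f
  have h2 : ∀ j, ModMONO.g (D.a j) (Real.pi - φ) x =
      Real.arctan (Real.sin φ / (D.a j / x + Real.cos φ)) := by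
    intro j
    have ha := D.ha j
    have hs : 0 < Real.sin φ := Real.sin_pos_of_pos_of_lt_pi h0 (by linarith)
    have hc : 0 < Real.cos φ := Real.cos_pos_of_mem_Ioo ⟨by linarith, h1⟩
    rw [ModMONO.g_eq ha hx (by rw [Real.sin_pi_sub]; exact hs), Real.sin_pi_sub,
      Real.cos_pi_sub, sub_neg_eq_add]
    rw [← Real.arctan_inv_of_pos (by positivity), inv_div]
  simp only [h2]
  push_cast
  ring

theorem f_neg (D : Dat) {x : ℝ} (hx : 0 < x) (h : dd D x < 1) :
    ∀ᶠ φ in 𝓝[>] (0 : ℝ), f D x φ < 0 := by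
  have h1 := (hasDerivAt_iff_tendsto_slope.1 (f_deriv D hx)).eventually_lt_const
    (show dd D x - 1 < 0 by linarith)
  have h2 : 𝓝[>] (0 : ℝ) ≤ 𝓝[≠] 0 := nhdsWithin_mono _ (fun y hy => ne_of_gt hy)
  filter_upwards [h2 h1, self_mem_nhdsWithin] with φ h3 h4
  have h4' : 0 < φ := h4
  rw [slope_def_field, f_zero, sub_zero, sub_zero] at h3
  by_contra hcon
  rw [not_lt] at hcon
  have := div_nonneg hcon h4'.le
  linarith

theorem f_pos (D : Dat) {x : ℝ} (hx : 0 < x) (h : 1 < dd D x) :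
    ∀ᶠ φ in 𝓝[>] (0 : ℝ), 0 < f D x φ := by
  have h1 := (hasDerivAt_iff_tendsto_slope.1 (f_deriv D hx)).eventually_const_lt
    (show 0 < dd D x - 1 by linarith)
  have h2 : 𝓝[>] (0 : ℝ) ≤ 𝓝[≠] 0 := nhdsWithin_mono _ (fun y hy => ne_of_gt hy)
  filter_upwards [h2 h1, self_mem_nhdsWithin] with φ h3 h4
  have h4' : 0 < φ := h4
  rw [slope_def_field, f_zero, sub_zero, sub_zero] at h3
  by_contra hcon
  rw [not_lt] at hcon
  have := div_nonpos_of_nonpos_of_nonneg hcon h4'.le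
  linarith

theorem to_left {p : ℝ → Prop} (h : ∀ᶠ φ in 𝓝[>] (0 : ℝ), p φ) :
    ∀ᶠ θ in 𝓝[<] Real.pi, p (Real.pi - θ) := by
  have h1 : Tendsto (fun θ : ℝ => Real.pi - θ) (𝓝[<] Real.pi) (𝓝[>] 0) := by
    apply tendsto_nhdsWithin_of_tendsto_nhds_of_eventually_within
    · have : Tendsto (fun θ : ℝ => Real.pi - θ) (𝓝 Real.pi) (𝓝 (Real.pi - Real.pi)) :=
        tendsto_const_nhds.sub tendsto_id
      rw [sub_self] at this
      exact this.mono_left nhdsWithin_le_nhds
    · filter_upwards [self_mem_nhdsWithin] with θ hθ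
      have : θ < Real.pi := hθ
      simp only [mem_Ioi]
      linarith
  exact h1.eventually h

end ModLIM1

open ModLIM1 in
theorem mLIM1 (hm : StmMONO) : StmLIM1 := by
  intro D tau hM hc hr
  have hpi := Real.pi_pos
  have hn : 2 ≤ D.n := by
    rcases hM with h | h
    · exact h
    · omega
  have hthm : D.thm = Real.pi := by
    unfold Dat.thm
    rw [hr]
    simp
  obtain ⟨x₀, hx0, hx1⟩ := exists_x₀ D hn
  refine ⟨x₀, hx0, ?_, ?_⟩
  · rw [S_eq D hr, hx1, sub_self]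
    simp
  have hfil : 𝓝[Ioo 0 D.thm \ {D.thm}] D.thm ≤ 𝓝[<] Real.pi := by
    rw [hthm]
    exact nhdsWithin_mono _ (fun y hy => hy.1.2)
  have hIoo : ∀ᶠ θ in 𝓝[<] Real.pi, θ ∈ Ioo 0 D.thm := by
    rw [hthm]
    exact Ioo_mem_nhdsLT hpi
  have hhalf : ∀ᶠ θ in 𝓝[<] Real.pi, Real.pi / 2 < θ :=
    nhdsWithin_le_nhds (lt_mem_nhds (by linarith))
  have htau : Tendsto tau (𝓝[<] Real.pi) (𝓝 x₀) := by
    rw [Metric.tendsto_nhds]
    intro ε hε
    obtain ⟨e, he⟩ : ∃ e, e = min ε (x₀ / 2) := ⟨_, rfl⟩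
    have he0 : 0 < e := by rw [he]; exact lt_min hε (by linarith)
    have heε : e ≤ ε := by rw [he]; exact min_le_left _ _
    have hex : e ≤ x₀ / 2 := by rw [he]; exact min_le_right _ _
    have h1 := dd_mono D (x := x₀ - e) (y := x₀) (by linarith) (by linarith)
    have h2 := dd_mono D (x := x₀) (y := x₀ + e) (by linarith) (by linarith)
    rw [hx1] at h1 h2
    have h3 := to_left (f_neg D (by linarith) h1)
    have h4 := to_left (f_pos D (by linarith) h2)
    filter_upwards [h3, h4, hIoo, hhalf] with θ k1 k2 k3 k4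
    have k5 := k3.2
    rw [hthm] at k5
    have e1 := A_eq D hr (x := x₀ - e) (φ := Real.pi - θ) (by linarith) (by linarith)
      (by linarith)
    have e2 := A_eq D hr (x := x₀ + e) (φ := Real.pi - θ) (by linarith) (by linarith)
      (by linarith)
    rw [sub_sub_cancel] at e1 e2
    have l1 := ModLIM2.gt_of_A hm D hc k3 (x := x₀ - e) (by linarith) (by rw [e1]; linarith)
    have l2 := ModLIM2.lt_of_A hm D hc k3 (x := x₀ + e) (by linarith) (by rw [e2]; linarith)
    rw [Real.dist_eq, abs_lt]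
    constructor <;> linarith
  have hexp : Tendsto (fun θ : ℝ => Complex.exp ((θ : ℂ) * Complex.I)) (𝓝[<] Real.pi)
      (𝓝 (Complex.exp ((Real.pi : ℂ) * Complex.I))) := by
    have : Continuous (fun θ : ℝ => Complex.exp ((θ : ℂ) * Complex.I)) := by fun_prop
    exact (this.tendsto Real.pi).mono_left nhdsWithin_le_nhds
  have hpt : Tendsto (pt tau) (𝓝[<] Real.pi)
      (𝓝 ((x₀ : ℂ) * Complex.exp ((Real.pi : ℂ) * Complex.I))) := by
    unfold pt
    exact ((Complex.continuous_ofReal.tendsto x₀).comp htau).mul hexp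
  rw [Complex.exp_pi_mul_I, mul_neg_one] at hpt
  exact hpt.mono_left hfil

end Pool.Agent.T6.H48.ZZ
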