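import Pool.Agent.T6.H48.ZZ.Basic
import Pool.Agent.T6.H48.ZZ.MONO
import Pool.Agent.T6.H48.ZZ.CURVE

/-!
Project ZZ (helper48), module LIM2: the limit at `θ = π / r`, `r ≥ 2`.
-/

set_option autoImplicit false

namespace Pool.Agent.T6.H48.ZZ

open Polynomial Set Filter Topology

namespace ModLIM2

theorem arctan_le {y : ℝ} (hy : 0 ≤ y) : Real.arctan y ≤ y := by
  have h := Real.le_tan (Real.arctan_nonneg.2 hy) (Real.arctan_lt_pi_div_two y)
  rwa [Real.tan_arctan] at h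

theorem g_le {a θ x : ℝ} (ha : 0 < a) (h0 : 0 < θ) (h1 : θ < Real.pi) (hx : 0 < x) :
    ModMONO.g a θ x ≤ 2 * Real.pi * x / a := by
  have hpi := Real.pi_pos
  have hs := Real.sin_pos_of_pos_of_lt_pi h0 h1
  rcases le_or_gt x (a / 2) with h | h
  · rw [ModMONO.g_eq ha hx hs]
    have h2 : 2 ≤ a / x := by
      rw [le_div_iff₀ hx]
      linarith
    have hc := Real.cos_le_one θ
    have h3 : 0 < (a / x - Real.cos θ) / Real.sin θ := div_pos (by linarith) hs
    have h4 : Real.pi / 2 - Real.arctan ((a / x - Real.cos θ) / Real.sin θ) =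
        Real.arctan (Real.sin θ / (a / x - Real.cos θ)) := by
      rw [← Real.arctan_inv_of_pos h3, inv_div]
    rw [h4]
    have h5 : Real.arctan (Real.sin θ / (a / x - Real.cos θ)) ≤
        Real.sin θ / (a / x - Real.cos θ) :=
      arctan_le (div_nonneg hs.le (by linarith))
    refine h5.trans ?_
    have h6 : Real.sin θ / (a / x - Real.cos θ) ≤ 1 / (a / x / 2) := by
      apply div_le_div₀ (by norm_num) (Real.sin_le_one θ) (by positivity)
      linarith
    refine h6.trans ?_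
    have h7 : 1 / (a / x / 2) = 2 * 1 * x / a := by
      field_simp
    rw [h7]
    have h8 : (1 : ℝ) ≤ Real.pi := by linarith [Real.pi_gt_three]
    gcongr
  · have h2 := ModMONO.g_lt ha h0 h1 hx
    have h3 : Real.pi ≤ 2 * Real.pi * x / a := by
      rw [le_div_iff₀ ha]
      nlinarith
    linarith

/-- continuity of the argument function in the angle -/
theorem cont_angle (D : Dat) {θ x : ℝ} (h0 : 0 < θ) (h1 : θ < Real.pi) (hx : 0 < x) :
    ContinuousAt (fun ϑ : ℝ => D.A ((x : ℂ) * Complex.exp ((ϑ : ℂ) * Complex.I))) θ := by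
  have hA := ModCURVE.A_cont D (ModCURVE.im_pos hx h0 h1)
  have hcc : ContinuousAt (fun ϑ : ℝ => (x : ℂ) * Complex.exp ((ϑ : ℂ) * Complex.I)) θ := by
    fun_prop
  exact ContinuousAt.comp (f := fun ϑ : ℝ => (x : ℂ) * Complex.exp ((ϑ : ℂ) * Complex.I))
    hA hcc

/-- comparison with the curve -/
theorem lt_of_A (hm : StmMONO) (D : Dat) {tau : ℝ → ℝ} (hc : D.IsCurve tau) {θ x : ℝ}
    (hθ : θ ∈ Ioo 0 D.thm) (hx : 0 < x)
    (h : Real.pi < D.A ((x : ℂ) * Complex.exp ((θ : ℂ) * Complex.I))) : tau θ < x := by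
  obtain ⟨m1, -, -, -⟩ := hm D θ hθ.1 (Dat.IsCurve.lt_pi hθ)
  have hp := (hc.2 θ hθ).1
  have hv := (hc.2 θ hθ).2
  by_contra hcon
  rw [not_lt] at hcon
  have := m1.monotoneOn (show x ∈ Ioi 0 from hx) (show tau θ ∈ Ioi 0 from hp) hcon
  unfold pt at hv
  linarith

theorem gt_of_A (hm : StmMONO) (D : Dat) {tau : ℝ → ℝ} (hc : D.IsCurve tau) {θ x : ℝ}
    (hθ : θ ∈ Ioo 0 D.thm) (hx : 0 < x)
    (h : D.A ((x : ℂ) * Complex.exp ((θ : ℂ) * Complex.I)) < Real.pi) : x < tau θ := by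
  obtain ⟨m1, -, -, -⟩ := hm D θ hθ.1 (Dat.IsCurve.lt_pi hθ)
  have hp := (hc.2 θ hθ).1
  have hv := (hc.2 θ hθ).2
  by_contra hcon
  rw [not_lt] at hcon
  have := m1.monotoneOn (show tau θ ∈ Ioi 0 from hp) (show x ∈ Ioi 0 from hx) hcon
  unfold pt at hv
  linarith

theorem sum_eq (D : Dat) {tau : ℝ → ℝ} (hc : D.IsCurve tau) {θ : ℝ} (hθ : θ ∈ Ioo 0 D.thm) :
    ∑ j, ModMONO.g (D.a j) θ (tau θ) + D.r * θ = Real.pi := by
  rw [← ModMONO.A_eq D hθ.1 (Dat.IsCurve.lt_pi hθ) (hc.2 θ hθ).1]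
  exact (hc.2 θ hθ).2

end ModLIM2

open ModLIM2 in
theorem mLIM2 (hm : StmMONO) : StmLIM2 := by
  intro D tau hc hr
  have hpi := Real.pi_pos
  have hr0 : D.r ≠ 0 := by omega
  have hr2 : (2 : ℝ) ≤ D.r := by exact_mod_cast hr
  have hthm : D.thm = Real.pi / D.r := by
    unfold Dat.thm
    rw [if_neg hr0]
  have hrt : (D.r : ℝ) * D.thm = Real.pi := by
    rw [hthm]; field_simp
  have htp : 0 < D.thm := by
    rw [hthm]; positivity
  have htl : D.thm < Real.pi := by nlinarith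
  constructor
  · rw [Metric.tendsto_nhds]
    intro ε hε
    have h1 := (hm D D.thm htp htl).2.1 ε hε
    rw [hrt] at h1
    have h2 := (cont_angle D htp htl hε).eventually_const_lt h1.1
    have h3 : ∀ᶠ θ in 𝓝[<] D.thm, θ ∈ Ioo 0 D.thm := Ioo_mem_nhdsLT htp
    filter_upwards [nhdsWithin_le_nhds h2, h3] with θ h4 h5
    have h6 := lt_of_A hm D hc h5 hε h4
    have h7 := (hc.2 θ h5).1
    rw [Real.dist_eq, sub_zero, abs_of_pos h7]
    exact h6
  · have hne : (Finset.univ : Finset (Fin D.n)).Nonempty := by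
      have := D.hn
      exact ⟨⟨0, by omega⟩, Finset.mem_univ _⟩
    refine ⟨∑ j, 2 * Real.pi / D.a j, Finset.sum_pos (fun j _ => ?_) hne, ?_⟩
    · have := D.ha j
      positivity
    · intro θ hθ
      have hs := sum_eq D hc hθ
      have hp := (hc.2 θ hθ).1
      have h1 : ∑ j, ModMONO.g (D.a j) θ (tau θ) ≤ ∑ j, 2 * Real.pi * tau θ / D.a j :=
        Finset.sum_le_sum (fun j _ => g_le (D.ha j) hθ.1 (Dat.IsCurve.lt_pi hθ) hp)
      have h2 : ∑ j, 2 * Real.pi * tau θ / D.a j = (∑ j, 2 * Real.pi / D.a j) * tau θ := by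
        rw [Finset.sum_mul]
        refine Finset.sum_congr rfl fun j _ => ?_
        ring
      rw [h2] at h1
      have h3 : 0 ≤ D.thm - θ := by linarith [hθ.2]
      nlinarith

end Pool.Agent.T6.H48.ZZ
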