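import Pool.Agent.T6.H48.ZZ.Basic

/-!
# Module LIMB: the limit at `θ = 0`, simple smallest zero
-/

namespace Pool.Agent.T6.H48.ZZ

open Polynomial Set Filter Topology

namespace ModLIMB

/-- the function `S` on the real line -/
noncomputable def sR (D : Dat) (x : ℝ) : ℝ := (D.r : ℝ) + ∑ j, x / (D.a j - x)

theorem S_ofReal (D : Dat) (x : ℝ) : D.S (x : ℂ) = ((sR D x : ℝ) : ℂ) := by
  unfold Dat.S sR
  push_cast
  rfl

section
variable {D : Dat} {j₀ : Fin D.n} {x : ℝ}

/-- `x` lies between the smallest zero and the others -/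
def InI (D : Dat) (j₀ : Fin D.n) (x : ℝ) : Prop := D.a j₀ < x ∧ ∀ j, j ≠ j₀ → x < D.a j

theorem InI.pos {x : ℝ} (h : InI D j₀ x) : 0 < x := (D.ha j₀).trans h.1

theorem InI.ne {x : ℝ} (h : InI D j₀ x) (j : Fin D.n) : D.a j - x ≠ 0 := by
  rcases eq_or_ne j j₀ with rfl | hj
  · exact (sub_neg.2 h.1).ne
  · exact (sub_pos.2 (h.2 j hj)).ne'

theorem InI.mid {x y z : ℝ} (hx : InI D j₀ x) (hz : InI D j₀ z) (h1 : x ≤ y) (h2 : y ≤ z) :
    InI D j₀ y := ⟨hx.1.trans_le h1, fun j hj => h2.trans_lt (hz.2 j hj)⟩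

theorem term_eq {a x : ℝ} (h : a - x ≠ 0) : x / (a - x) = a / (a - x) - 1 := by
  field_simp
  ring

theorem sR_lt {x y : ℝ} (hx : InI D j₀ x) (hy : InI D j₀ y) (hxy : x < y) : sR D x < sR D y := by
  unfold sR
  have hlt : ∀ j ∈ (Finset.univ : Finset (Fin D.n)), x / (D.a j - x) < y / (D.a j - y) := by
    intro j _
    have ha := D.ha j
    have hx' := hx.ne j
    have hy' := hy.ne j
    have h1 : 0 < (D.a j - x) * (D.a j - y) := by
      rcases eq_or_ne j j₀ with rfl | hj
      · exact mul_pos_of_neg_of_neg (sub_neg.2 hx.1) (sub_neg.2 hy.1)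
      · exact mul_pos (sub_pos.2 (hx.2 j hj)) (sub_pos.2 (hy.2 j hj))
    have h2 : y / (D.a j - y) - x / (D.a j - x) =
        D.a j * (y - x) / ((D.a j - x) * (D.a j - y)) := by
      field_simp
      ring
    have h3 : 0 < D.a j * (y - x) / ((D.a j - x) * (D.a j - y)) :=
      div_pos (mul_pos ha (sub_pos.2 hxy)) h1
    linarith
  have := Finset.sum_lt_sum_of_nonempty ⟨j₀, Finset.mem_univ _⟩ hlt
  linarith

theorem sR_cont {x : ℝ} (hx : InI D j₀ x) : ContinuousAt (sR D) x := by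
  unfold sR
  refine continuousAt_const.add (tendsto_finsetSum _ fun j _ => ?_)
  exact (continuousAt_id.div (continuousAt_const.sub continuousAt_id) (hx.ne j))

theorem exists_neg (hmin : ∀ j, j ≠ j₀ → D.a j₀ < D.a j) : ∃ x, InI D j₀ x ∧ sR D x < 0 := by
  obtain ⟨β, hβ, hβ'⟩ : ∃ β, D.a j₀ < β ∧ ∀ j, j ≠ j₀ → β ≤ D.a j := by
    rcases ((Finset.univ : Finset (Fin D.n)).erase j₀).eq_empty_or_nonempty with h | h
    · refine ⟨D.a j₀ + 1, by linarith, fun j hj => ?_⟩
      have : j ∈ (Finset.univ : Finset (Fin D.n)).erase j₀ :=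
        Finset.mem_erase.2 ⟨hj, Finset.mem_univ _⟩
      rw [h] at this
      exact absurd this (Finset.notMem_empty _)
    · obtain ⟨j₁, hj₁, hmin'⟩ := Finset.exists_min_image _ D.a h
      exact ⟨D.a j₁, hmin j₁ (Finset.mem_erase.1 hj₁).1,
        fun j hj => hmin' j (Finset.mem_erase.2 ⟨hj, Finset.mem_univ _⟩)⟩
  set α := D.a j₀ with hα
  have hα0 : 0 < α := D.ha j₀
  have hβα : 0 < β - α := sub_pos.2 hβ
  set M : ℝ := β / ((β - α) / 2) with hM
  have hM0 : 0 ≤ M := div_nonneg (by linarith) (by linarith)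
  set W : ℝ := (D.r : ℝ) + D.n * M + 1 with hW
  have hW0 : 0 < W := by positivity
  set δ : ℝ := min ((β - α) / 4) (α / W) with hδ
  have hδ0 : 0 < δ := lt_min (by positivity) (by positivity)
  have hδ1 : δ ≤ (β - α) / 4 := min_le_left _ _
  have hδ2 : δ ≤ α / W := min_le_right _ _
  have hI : InI D j₀ (α + δ) := by
    refine ⟨by rw [← hα]; linarith, fun j hj => ?_⟩
    have := hβ' j hj
    linarith
  refine ⟨α + δ, hI, ?_⟩
  have hterm0 : (α + δ) / (D.a j₀ - (α + δ)) ≤ -W := by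
    rw [← hα, show α - (α + δ) = -δ by ring, div_neg, neg_le_neg_iff, le_div_iff₀ hδ0]
    rw [le_div_iff₀ hW0] at hδ2
    linarith
  have hterms : ∀ j ∈ (Finset.univ : Finset (Fin D.n)).erase j₀,
      (α + δ) / (D.a j - (α + δ)) ≤ M := by
    intro j hj
    have h1 := hβ' j (Finset.mem_erase.1 hj).1
    have h2 : (β - α) / 2 ≤ D.a j - (α + δ) := by linarith
    exact div_le_div₀ (by linarith) (by linarith) (by positivity) h2
  have hsum : ∑ j ∈ (Finset.univ : Finset (Fin D.n)).erase j₀, (α + δ) / (D.a j - (α + δ)) ≤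
      D.n * M := by
    refine (Finset.sum_le_card_nsmul _ _ _ hterms).trans ?_
    rw [nsmul_eq_mul]
    refine mul_le_mul_of_nonneg_right ?_ hM0
    have : ((Finset.univ : Finset (Fin D.n)).erase j₀).card ≤ D.n :=
      (Finset.card_le_card (Finset.erase_subset _ _)).trans (by simp)
    exact_mod_cast this
  unfold sR
  rw [← Finset.add_sum_erase _ _ (Finset.mem_univ j₀)]
  linarith

theorem exists_pos (hMain : D.Main) (hmin : ∀ j, j ≠ j₀ → D.a j₀ < D.a j) :
    ∃ x, InI D j₀ x ∧ 0 < sR D x := by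
  set α := D.a j₀ with hα
  have hα0 : 0 < α := D.ha j₀
  rcases ((Finset.univ : Finset (Fin D.n)).erase j₀).eq_empty_or_nonempty with h | h
  · have hall : ∀ j : Fin D.n, j = j₀ := by
      intro j
      by_contra hj
      have : j ∈ (Finset.univ : Finset (Fin D.n)).erase j₀ :=
        Finset.mem_erase.2 ⟨hj, Finset.mem_univ _⟩
      rw [h] at this
      exact Finset.notMem_empty _ this
    have hr : 2 ≤ D.r := by
      rcases hMain with h2 | h2
      · exfalso
        have e1 := hall ⟨0, by omega⟩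
        have e2 := hall ⟨1, by omega⟩
        have := e1.trans e2.symm
        simp at this
      · exact h2
    have hr' : (2 : ℝ) ≤ D.r := by exact_mod_cast hr
    refine ⟨3 * α, ⟨by rw [← hα]; linarith, fun j hj => absurd (hall j) hj⟩, ?_⟩
    unfold sR
    rw [← Finset.add_sum_erase _ _ (Finset.mem_univ j₀), h, Finset.sum_empty, add_zero, ← hα]
    have : 3 * α / (α - 3 * α) = -(3 / 2) := by
      field_simp
      ring
    rw [this]
    linarith
  · obtain ⟨j₁, hj₁, hmin'⟩ := Finset.exists_min_image _ D.a h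
    have hj₁' := (Finset.mem_erase.1 hj₁).1
    set β := D.a j₁ with hβd
    have hβ : α < β := hmin j₁ hj₁'
    have hβα : 0 < β - α := sub_pos.2 hβ
    set W : ℝ := β / ((β - α) / 2) + 1 with hW
    have hW0 : 0 < W := by
      have : 0 ≤ β / ((β - α) / 2) := div_nonneg (by linarith) (by linarith)
      linarith
    set δ : ℝ := min ((β - α) / 2) (α / W) / 2 with hδ
    have hδ0 : 0 < δ := by
      have : 0 < min ((β - α) / 2) (α / W) := lt_min (by positivity) (by positivity)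
      positivity
    have hδ1 : δ ≤ (β - α) / 4 := by
      have : min ((β - α) / 2) (α / W) ≤ (β - α) / 2 := min_le_left _ _
      rw [hδ]; linarith
    have hδ2 : δ ≤ α / W := by
      have h1 : min ((β - α) / 2) (α / W) ≤ α / W := min_le_right _ _
      have h2 : 0 < α / W := by positivity
      rw [hδ]; linarith
    have hI : InI D j₀ (β - δ) := by
      refine ⟨by rw [← hα]; linarith, fun j hj => ?_⟩
      have := hmin' j (Finset.mem_erase.2 ⟨hj, Finset.mem_univ _⟩)
      linarith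
    refine ⟨β - δ, hI, ?_⟩
    have hterm0 : -(W - 1) ≤ (β - δ) / (D.a j₀ - (β - δ)) := by
      have h1 : (β - δ) / (D.a j₀ - (β - δ)) = -((β - δ) / ((β - δ) - α)) := by
        rw [← hα, ← div_neg]
        congr 1
        ring
      rw [h1, neg_le_neg_iff, hW, add_sub_cancel_right]
      exact div_le_div₀ (by linarith) (by linarith) (by positivity) (by linarith)
    have hterm1 : W ≤ (β - δ) / (D.a j₁ - (β - δ)) := by
      rw [← hβd, show β - (β - δ) = δ by ring, le_div_iff₀ hδ0]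
      rw [le_div_iff₀ hW0] at hδ2
      linarith
    have hsum : (β - δ) / (D.a j₁ - (β - δ)) ≤
        ∑ j ∈ (Finset.univ : Finset (Fin D.n)).erase j₀, (β - δ) / (D.a j - (β - δ)) := by
      refine Finset.single_le_sum (f := fun j => (β - δ) / (D.a j - (β - δ))) (fun j hj => ?_) hj₁
      have h1 := hI.2 j (Finset.mem_erase.1 hj).1
      exact div_nonneg (by linarith) (by linarith)
    unfold sR
    rw [← Finset.add_sum_erase _ _ (Finset.mem_univ j₀)]
    have : (0 : ℝ) ≤ D.r := by positivity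
    linarith

theorem exists_zero (hMain : D.Main) (hmin : ∀ j, j ≠ j₀ → D.a j₀ < D.a j) :
    ∃ x, InI D j₀ x ∧ sR D x = 0 := by
  obtain ⟨x1, h1, h1'⟩ := exists_neg hmin
  obtain ⟨x2, h2, h2'⟩ := exists_pos hMain hmin
  have h12 : x1 ≤ x2 := by
    by_contra h
    push Not at h
    have := sR_lt h2 h1 h
    linarith
  have hc : ContinuousOn (sR D) (Icc x1 x2) := fun y hy =>
    (sR_cont (h1.mid h2 hy.1 hy.2)).continuousWithinAt
  obtain ⟨x, hx, hx0⟩ := intermediate_value_Icc h12 hc ⟨h1'.le, h2'.le⟩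
  exact ⟨x, h1.mid h2 hx.1 hx.2, hx0⟩

/-- the factor `1 - conj t / a_j` at `t = x e^{iθ}`, with the opposite sign for `j = j₀` -/
noncomputable def u (D : Dat) (j₀ : Fin D.n) (x : ℝ) (j : Fin D.n) (θ : ℝ) : ℂ :=
  (if j = j₀ then -1 else 1) * (1 - ((x / D.a j : ℝ) : ℂ) * Complex.exp (-((θ : ℂ) * Complex.I)))

/-- `A(x e^{iθ}) - π` -/
noncomputable def G (D : Dat) (j₀ : Fin D.n) (x θ : ℝ) : ℝ :=
  ∑ j, (Complex.log (u D j₀ x j θ)).im + D.r * θ

theorem conj_factor (D : Dat) (x θ : ℝ) (j : Fin D.n) :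
    1 - (starRingEnd ℂ) ((x : ℂ) * Complex.exp ((θ : ℂ) * Complex.I)) / (D.a j : ℂ) =
      1 - ((x / D.a j : ℝ) : ℂ) * Complex.exp (-((θ : ℂ) * Complex.I)) := by
  rw [map_mul, ← Complex.exp_conj, map_mul, Complex.conj_ofReal, Complex.conj_ofReal,
    Complex.conj_I]
  push_cast
  ring_nf

theorem factor_im (D : Dat) (x θ : ℝ) (j : Fin D.n) :
    (1 - ((x / D.a j : ℝ) : ℂ) * Complex.exp (-((θ : ℂ) * Complex.I))).im =
      x / D.a j * Real.sin θ := by
  have h : -((θ : ℂ) * Complex.I) = ((-θ : ℝ) : ℂ) * Complex.I := by push_cast; ring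
  rw [h, Complex.sub_im, Complex.one_im, Complex.im_ofReal_mul, Complex.exp_ofReal_mul_I_im,
    Real.sin_neg]
  ring

theorem A_eq (hx : InI D j₀ x) {θ : ℝ} (h0 : 0 < θ) (h1 : θ < Real.pi) :
    D.A ((x : ℂ) * Complex.exp ((θ : ℂ) * Complex.I)) = Real.pi + G D j₀ x θ := by
  unfold Dat.A G
  have harg : Complex.arg ((x : ℂ) * Complex.exp ((θ : ℂ) * Complex.I)) = θ := by
    rw [Complex.arg_real_mul _ hx.pos, Complex.arg_exp_mul_I, toIocMod_eq_self]
    constructor
    · linarith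
    · linarith
  rw [harg]
  have hj : ∀ j : Fin D.n, Complex.arg (1 -
      (starRingEnd ℂ) ((x : ℂ) * Complex.exp ((θ : ℂ) * Complex.I)) / (D.a j : ℂ)) =
      (if j = j₀ then Real.pi else 0) + (Complex.log (u D j₀ x j θ)).im := by
    intro j
    rw [conj_factor, Complex.log_im]
    unfold u
    split_ifs with h
    · have him : 0 < (1 - ((x / D.a j : ℝ) : ℂ) *
          Complex.exp (-((θ : ℂ) * Complex.I))).im := by
        rw [factor_im]
        exact mul_pos (div_pos hx.pos (D.ha j)) (Real.sin_pos_of_pos_of_lt_pi h0 h1)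
      rw [neg_one_mul, Complex.arg_neg_eq_arg_sub_pi_of_im_pos him]
      ring
    · rw [one_mul, zero_add]
  simp only [hj]
  rw [Finset.sum_add_distrib, Finset.sum_ite_eq' Finset.univ j₀ (fun _ => Real.pi),
    if_pos (Finset.mem_univ _)]
  ring

theorem u_zero (hx : InI D j₀ x) (j : Fin D.n) :
    ∃ y : ℝ, 0 < y ∧ u D j₀ x j 0 = (y : ℂ) ∧
      (if j = j₀ then (-1 : ℝ) else 1) * (x / D.a j) / y = x / (D.a j - x) := by
  have ha := D.ha j
  have hne := hx.ne j
  refine ⟨(if j = j₀ then -1 else 1) * (1 - x / D.a j), ?_, ?_, ?_⟩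
  · split_ifs with h
    · subst h
      have : 1 < x / D.a j := by rw [one_lt_div ha]; exact hx.1
      linarith
    · have : x / D.a j < 1 := by rw [div_lt_one ha]; exact hx.2 j h
      linarith
  · unfold u
    rw [Complex.ofReal_zero, zero_mul, neg_zero, Complex.exp_zero, mul_one]
    split_ifs <;> push_cast <;> ring
  · have h1 : 1 - x / D.a j = (D.a j - x) / D.a j := by field_simp
    split_ifs with h
    · rw [h1]; field_simp
    · rw [h1]; field_simp

theorem G_deriv (hx : InI D j₀ x) : HasDerivAt (G D j₀ x) (sR D x) 0 := by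
  unfold G sR
  have hj : ∀ j ∈ (Finset.univ : Finset (Fin D.n)),
      HasDerivAt (fun θ : ℝ => (Complex.log (u D j₀ x j θ)).im) (x / (D.a j - x)) 0 := by
    intro j _
    obtain ⟨y, hy, hy1, hy2⟩ := u_zero hx j
    have h1 : HasDerivAt (fun θ : ℝ => Complex.exp (-((θ : ℂ) * Complex.I)))
        (Complex.exp (-(((0 : ℝ) : ℂ) * Complex.I)) * (-(1 * Complex.I))) 0 := by
      have h2 : HasDerivAt (fun θ : ℝ => (θ : ℂ)) 1 0 := Complex.ofRealCLM.hasDerivAt
      exact (h2.mul_const Complex.I).neg.cexp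
    have h3 := ((h1.const_mul ((x / D.a j : ℝ) : ℂ)).const_sub 1).const_mul
      (if j = j₀ then (-1 : ℂ) else 1)
    have h4 : HasDerivAt (u D j₀ x j) ((if j = j₀ then (-1 : ℂ) else 1) *
        (((x / D.a j : ℝ) : ℂ) * Complex.I)) 0 := by
      convert! h3 using 1
      rw [Complex.ofReal_zero, zero_mul, neg_zero, Complex.exp_zero]
      ring
    have hs : u D j₀ x j 0 ∈ Complex.slitPlane := by
      rw [hy1]; exact Complex.ofReal_mem_slitPlane.2 hy
    have h5 := h4.clog_real hs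
    have h6 : HasDerivAt (fun θ : ℝ => (Complex.log (u D j₀ x j θ)).im)
        (((if j = j₀ then (-1 : ℂ) else 1) * (((x / D.a j : ℝ) : ℂ) * Complex.I) /
          u D j₀ x j 0).im) 0 :=
      Complex.imCLM.hasFDerivAt.comp_hasDerivAt (0 : ℝ) h5
    convert! h6 using 1
    rw [hy1, ← hy2]
    have h7 : (if j = j₀ then (-1 : ℂ) else 1) * (((x / D.a j : ℝ) : ℂ) * Complex.I) / (y : ℂ) =
        (((if j = j₀ then (-1 : ℝ) else 1) * (x / D.a j) / y : ℝ) : ℂ) * Complex.I := by
      split_ifs <;> push_cast <;> ring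
    rw [h7, Complex.im_ofReal_mul, Complex.I_im, mul_one]
  have h8 := HasDerivAt.fun_sum hj
  have h9 : HasDerivAt (fun θ : ℝ => (D.r : ℝ) * θ) ((D.r : ℝ) * 1) 0 :=
    (hasDerivAt_id (0 : ℝ)).const_mul _
  have h10 := h8.add h9
  rw [mul_one] at h10
  rw [add_comm (D.r : ℝ)]
  exact h10

theorem G_zero (hx : InI D j₀ x) : G D j₀ x 0 = 0 := by
  unfold G
  rw [mul_zero, add_zero]
  refine Finset.sum_eq_zero fun j _ => ?_
  obtain ⟨y, hy, hy1, -⟩ := u_zero hx j
  rw [hy1, ← Complex.ofReal_log hy.le, Complex.ofReal_im]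

theorem ev_neg (hx : InI D j₀ x) (h : sR D x < 0) : ∀ᶠ θ in 𝓝[>] (0 : ℝ), G D j₀ x θ < 0 := by
  have h1 := (hasDerivAt_iff_tendsto_slope.1 (G_deriv hx)).eventually (gt_mem_nhds h)
  have h2 : 𝓝[>] (0 : ℝ) ≤ 𝓝[≠] 0 := nhdsWithin_mono _ fun y hy => ne_of_gt hy
  filter_upwards [h2 h1, self_mem_nhdsWithin] with θ h3 h4
  rw [slope_def_field, G_zero hx, sub_zero, sub_zero] at h3
  have h5 : (0 : ℝ) < θ := h4
  by_contra h6
  push Not at h6
  have := div_nonneg h6 h5.le
  linarith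

theorem ev_pos (hx : InI D j₀ x) (h : 0 < sR D x) : ∀ᶠ θ in 𝓝[>] (0 : ℝ), 0 < G D j₀ x θ := by
  have h1 := (hasDerivAt_iff_tendsto_slope.1 (G_deriv hx)).eventually (lt_mem_nhds h)
  have h2 : 𝓝[>] (0 : ℝ) ≤ 𝓝[≠] 0 := nhdsWithin_mono _ fun y hy => ne_of_gt hy
  filter_upwards [h2 h1, self_mem_nhdsWithin] with θ h3 h4
  rw [slope_def_field, G_zero hx, sub_zero, sub_zero] at h3
  have h5 : (0 : ℝ) < θ := h4
  by_contra h6
  push Not at h6
  have := div_nonpos_of_nonpos_of_nonneg h6 h5.le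
  linarith

end

end ModLIMB

open ModLIMB in
theorem mLIMB (hm : StmMONO) : StmLIMB := by
  intro D tau j₀ hMain hcur hmin
  obtain ⟨x₀, hI, h0⟩ := exists_zero hMain hmin
  refine ⟨x₀, hI.1, hI.2, by rw [S_ofReal, h0, Complex.ofReal_zero], ?_⟩
  have hle : 𝓝[Ioo 0 D.thm \ {0}] (0 : ℝ) ≤ 𝓝[>] (0 : ℝ) :=
    nhdsWithin_mono _ fun y hy => hy.1.1
  have hmem : ∀ᶠ θ in 𝓝[Ioo 0 D.thm \ {0}] (0 : ℝ), θ ∈ Ioo 0 D.thm := by
    filter_upwards [self_mem_nhdsWithin] with θ hθ using hθ.1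
  have hcmp : ∀ θ ∈ Ioo 0 D.thm, ∀ x : ℝ, 0 < x →
      (D.A ((x : ℂ) * Complex.exp ((θ : ℂ) * Complex.I)) < Real.pi → x < tau θ) ∧
      (Real.pi < D.A ((x : ℂ) * Complex.exp ((θ : ℂ) * Complex.I)) → tau θ < x) := by
    intro θ hθ x hx
    obtain ⟨ht, hA⟩ := hcur.2 θ hθ
    have hmono := (hm D θ hθ.1 (hθ.2.trans_le D.thm_le_pi)).1
    constructor
    · intro h
      by_contra hcon
      push Not at hcon
      have := hmono.monotoneOn (mem_Ioi.2 ht) (mem_Ioi.2 hx) hcon
      unfold pt at hA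
      rw [hA] at this
      linarith
    · intro h
      by_contra hcon
      push Not at hcon
      have := hmono.monotoneOn (mem_Ioi.2 hx) (mem_Ioi.2 ht) hcon
      unfold pt at hA
      rw [hA] at this
      linarith
  have htau : Tendsto tau (𝓝[Ioo 0 D.thm \ {0}] 0) (𝓝 x₀) := by
    rw [tendsto_order]
    constructor
    · intro a ha
      set x := max a ((D.a j₀ + x₀) / 2) with hx
      have hx1 : x < x₀ := max_lt ha (by linarith [hI.1])
      have hx2 : D.a j₀ < x := lt_of_lt_of_le (by linarith [hI.1]) (le_max_right _ _)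
      have hxI : InI D j₀ x := ⟨hx2, fun j hj => hx1.trans (hI.2 j hj)⟩
      have hs : sR D x < 0 := by rw [← h0]; exact sR_lt hxI hI hx1
      filter_upwards [hle (ev_neg hxI hs), hmem] with θ h1 h2
      have h3 := (hcmp θ h2 x hxI.pos).1 (by
        rw [A_eq hxI h2.1 (h2.2.trans_le D.thm_le_pi)]; linarith)
      exact (le_max_left _ _).trans_lt h3
    · intro b hb
      obtain ⟨x2, hx2, hs2⟩ := exists_pos hMain hmin
      have h02 : x₀ < x2 := by
        by_contra hcon
        push Not at hcon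
        rcases hcon.lt_or_eq with h | h
        · have := sR_lt hx2 hI h
          linarith
        · rw [h, h0] at hs2
          exact lt_irrefl _ hs2
      set x := min b x2 with hx
      have hx1 : x₀ < x := lt_min hb h02
      have hxI : InI D j₀ x := hI.mid hx2 hx1.le (min_le_right _ _)
      have hs : 0 < sR D x := by rw [← h0]; exact sR_lt hI hxI hx1
      filter_upwards [hle (ev_pos hxI hs), hmem] with θ h1 h2
      have h3 := (hcmp θ h2 x hxI.pos).2 (by
        rw [A_eq hxI h2.1 (h2.2.trans_le D.thm_le_pi)]; linarith)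
      exact h3.trans_le (min_le_left _ _)
  have h1 : Tendsto (fun θ : ℝ => Complex.exp ((θ : ℂ) * Complex.I))
      (𝓝[Ioo 0 D.thm \ {0}] 0) (𝓝 1) := by
    have hc : Continuous fun θ : ℝ => Complex.exp ((θ : ℂ) * Complex.I) := by fun_prop
    have := hc.tendsto 0
    simp only [Complex.ofReal_zero, zero_mul, Complex.exp_zero] at this
    exact this.mono_left nhdsWithin_le_nhds
  have h2 := ((Complex.continuous_ofReal.tendsto x₀).comp htau).mul h1
  rw [mul_one] at h2
  exact h2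

end Pool.Agent.T6.H48.ZZ
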