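import Pool.Agent.T6.H48.ZZ.Basic

/-!
# Module LOW
-/

namespace Pool.Agent.T6.H48.ZZ

open Polynomial Set Filter Topology

namespace ModLOW

/-- distance from a ray -/
theorem dist_ray {s r₀ θ θ₀ : ℝ} (hs : 0 ≤ s) :
    s * |Real.sin (θ - θ₀)| ≤
      ‖(s : ℂ) * Complex.exp ((θ : ℂ) * Complex.I) -
        (r₀ : ℂ) * Complex.exp ((θ₀ : ℂ) * Complex.I)‖ := by
  have h1 : ‖(s : ℂ) * Complex.exp ((θ : ℂ) * Complex.I) -
      (r₀ : ℂ) * Complex.exp ((θ₀ : ℂ) * Complex.I)‖ =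
      ‖((s : ℂ) * Complex.exp ((θ : ℂ) * Complex.I) -
        (r₀ : ℂ) * Complex.exp ((θ₀ : ℂ) * Complex.I)) *
        Complex.exp (((-θ₀ : ℝ) : ℂ) * Complex.I)‖ := by
    rw [norm_mul, Complex.norm_exp_ofReal_mul_I, mul_one]
  have h2 : ((s : ℂ) * Complex.exp ((θ : ℂ) * Complex.I) -
      (r₀ : ℂ) * Complex.exp ((θ₀ : ℂ) * Complex.I)) *
      Complex.exp (((-θ₀ : ℝ) : ℂ) * Complex.I) =
      (s : ℂ) * Complex.exp (((θ - θ₀ : ℝ) : ℂ) * Complex.I) - (r₀ : ℂ) := by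
    rw [sub_mul, mul_assoc, mul_assoc, ← Complex.exp_add, ← Complex.exp_add]
    have e1 : (θ : ℂ) * Complex.I + ((-θ₀ : ℝ) : ℂ) * Complex.I =
        ((θ - θ₀ : ℝ) : ℂ) * Complex.I := by push_cast; ring
    have e2 : (θ₀ : ℂ) * Complex.I + ((-θ₀ : ℝ) : ℂ) * Complex.I = 0 := by push_cast; ring
    rw [e1, e2, Complex.exp_zero, mul_one]
  rw [h1, h2]
  refine le_trans (le_of_eq ?_) (Complex.abs_im_le_norm _)
  rw [Complex.sub_im, Complex.ofReal_im, sub_zero, Complex.im_ofReal_mul,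
    Complex.exp_ofReal_mul_I_im, abs_mul, abs_of_nonneg hs]

end ModLOW

open ModLOW in
theorem mLOW : StmLOW := by
  intro D R tau θ₀ t₀ hcur hR ht₀ hpol hlim
  have hRC : R.map (algebraMap ℝ ℂ) ≠ 0 :=
    (Polynomial.map_ne_zero_iff (algebraMap ℝ ℂ).injective).2 hR
  obtain ⟨R1, hR1, hnd⟩ :=
    Polynomial.exists_eq_pow_rootMultiplicity_mul_and_not_dvd (R.map (algebraMap ℝ ℂ)) hRC t₀
  set κ := (R.map (algebraMap ℝ ℂ)).rootMultiplicity t₀ with hκ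
  have hR10 : R1.eval t₀ ≠ 0 := fun h => hnd (dvd_iff_isRoot.2 h)
  have hr0 : 0 < ‖t₀‖ := norm_pos_iff.2 ht₀
  set r1 := ‖R1.eval t₀‖ / 2 with hr1
  have hr1p : 0 < r1 := by have := norm_pos_iff.2 hR10; positivity
  set l := ‖aeval t₀ D.L‖ + 1 with hl
  have hlp : 0 < l := by positivity
  have hpi := Real.pi_pos
  -- the eventual estimates
  have e1 : ∀ᶠ t in 𝓝 t₀, r1 < ‖R1.eval t‖ := by
    have hc : Continuous fun t => ‖R1.eval t‖ := R1.continuous.norm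
    refine hc.continuousAt.eventually (lt_mem_nhds ?_)
    have := norm_pos_iff.2 hR10
    rw [hr1]; linarith
  have e2 : ∀ᶠ t in 𝓝 t₀, ‖aeval t D.L‖ < l := by
    have hc : Continuous fun t : ℂ => ‖aeval t D.L‖ := (D.L.continuous_aeval).norm
    refine hc.continuousAt.eventually (gt_mem_nhds ?_)
    rw [hl]; linarith
  have e3 : ∀ᶠ t in 𝓝 t₀, ‖t₀‖ / 2 < ‖t‖ :=
    continuous_norm.continuousAt.eventually (lt_mem_nhds (by linarith))
  have e4 := hlim.eventually (e1.and (e2.and e3))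
  obtain ⟨ε, hε, hε'⟩ := Metric.mem_nhdsWithin_iff.1 e4
  refine ⟨min (ε / 2) 1, by positivity, (‖t₀‖ / Real.pi) ^ κ * r1 / l, by positivity, κ,
    fun θ hθ h1 h2 => ?_⟩
  have hmem : θ ∈ Metric.ball θ₀ ε ∩ (Ioo 0 D.thm \ {θ₀}) := by
    refine ⟨?_, hθ, ?_⟩
    · rw [Metric.mem_ball, Real.dist_eq]
      have := h2.trans (min_le_left _ _)
      linarith
    · intro h
      rw [mem_singleton_iff] at h
      rw [h, sub_self, abs_zero] at h1
      exact lt_irrefl _ h1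
  obtain ⟨f1, f2, f3⟩ := hε' hmem
  have htau := hcur.pos hθ
  have hlt := D.thm_le_pi
  have him : 0 < (pt tau θ).im := by
    rw [pt_im]
    exact mul_pos htau (Real.sin_pos_of_pos_of_lt_pi hθ.1 (hθ.2.trans_le hlt))
  have hL0 : aeval (pt tau θ) D.L ≠ 0 := D.L_ne_zero_of_im him.ne'
  rw [norm_pt htau] at f3
  -- the distance
  have hdist : ‖t₀‖ / Real.pi * |θ - θ₀| ≤ ‖pt tau θ - t₀‖ := by
    have g1 : 2 / Real.pi * |θ - θ₀| ≤ |Real.sin (θ - θ₀)| := by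
      refine Real.mul_abs_le_abs_sin ?_
      have := h2.trans (min_le_right _ _)
      have h3 := Real.pi_gt_three
      linarith
    have g2 := dist_ray (s := tau θ) (r₀ := ‖t₀‖) (θ := θ) (θ₀ := θ₀) htau.le
    rw [← hpol] at g2
    calc ‖t₀‖ / Real.pi * |θ - θ₀| = ‖t₀‖ / 2 * (2 / Real.pi * |θ - θ₀|) := by ring
      _ ≤ tau θ * |Real.sin (θ - θ₀)| := mul_le_mul f3.le g1 (by positivity) htau.le
      _ ≤ ‖pt tau θ - t₀‖ := g2
  have hFe : ‖D.F R (pt tau θ)‖ =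
      ‖pt tau θ - t₀‖ ^ κ * ‖R1.eval (pt tau θ)‖ / ‖aeval (pt tau θ) D.L‖ := by
    unfold Dat.F
    rw [norm_div, ← eval_map_algebraMap, hR1, eval_mul, eval_pow, eval_sub, eval_X, eval_C,
      norm_mul, norm_pow]
  rw [hFe]
  have hLp : 0 < ‖aeval (pt tau θ) D.L‖ := norm_pos_iff.2 hL0
  calc (‖t₀‖ / Real.pi) ^ κ * r1 / l * |θ - θ₀| ^ κ
      = (‖t₀‖ / Real.pi * |θ - θ₀|) ^ κ * r1 / l := by rw [mul_pow]; ring
    _ ≤ ‖pt tau θ - t₀‖ ^ κ * ‖R1.eval (pt tau θ)‖ / ‖aeval (pt tau θ) D.L‖ := by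
        refine div_le_div₀ (by positivity) ?_ hLp f2.le
        exact mul_le_mul (pow_le_pow_left₀ (by positivity) hdist κ) f1.le hr1p.le (by positivity)

end Pool.Agent.T6.H48.ZZ
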