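import Pool.Agent.T6.H48.ZZ.Defs

/-!
Project ZZ (helper48), MP_4d57dd_an, module PF (helper51): partial fractions with the zeros in a
disc, and Cauchy's estimate for the rest.
-/

set_option autoImplicit false

namespace Pool.Agent.T6.H48.ZZ

open Polynomial Set Filter Topology

namespace ModPF

/-- the Taylor series at `0` as a power series -/
noncomputable def T (f : ℂ → ℂ) : PowerSeries ℂ :=
  PowerSeries.mk fun n => iteratedDeriv n f 0 / (n.factorial : ℂ)

theorem T_mul {f g : ℂ → ℂ} (hf : AnalyticAt ℂ f 0) (hg : AnalyticAt ℂ g 0) :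
    T (fun z => f z * g z) = T f * T g := by
  ext n
  rw [PowerSeries.coeff_mul]
  simp only [T, PowerSeries.coeff_mk]
  rw [iteratedDeriv_fun_mul hf.contDiffAt hg.contDiffAt,
    Finset.Nat.sum_antidiagonal_eq_sum_range_succ_mk, Finset.sum_div]
  refine Finset.sum_congr rfl fun i hi => ?_
  have hi' : i ≤ n := Nat.lt_succ_iff.1 (Finset.mem_range.1 hi)
  have h1 : ((n.choose i : ℂ)) * (i.factorial : ℂ) * ((n - i).factorial : ℂ) =
      (n.factorial : ℂ) := by
    exact_mod_cast Nat.choose_mul_factorial_mul_factorial hi'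
  have h2 : (i.factorial : ℂ) ≠ 0 := by exact_mod_cast Nat.factorial_ne_zero i
  have h3 : ((n - i).factorial : ℂ) ≠ 0 := by exact_mod_cast Nat.factorial_ne_zero (n - i)
  have h4 : (n.factorial : ℂ) ≠ 0 := by exact_mod_cast Nat.factorial_ne_zero n
  simp only
  rw [div_mul_div_comm, div_eq_div_iff h4 (mul_ne_zero h2 h3), ← h1]
  ring

theorem iter_poly (n : ℕ) (p : ℂ[X]) :
    iteratedDeriv n (fun z => p.eval z) = fun z => (derivative^[n] p).eval z := by
  induction n with
  | zero => simp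
  | succ n ih =>
    rw [iteratedDeriv_succ, ih, Function.iterate_succ_apply']
    funext z
    exact (derivative^[n] p).deriv

theorem T_poly (p : ℂ[X]) : T (fun z => p.eval z) = (p : PowerSeries ℂ) := by
  ext n
  simp only [T, PowerSeries.coeff_mk]
  rw [iter_poly]
  simp only
  rw [← coeff_zero_eq_eval_zero, coeff_iterate_derivative, zero_add, Nat.descFactorial_self,
    Polynomial.coeff_coe, nsmul_eq_mul]
  have h4 : (n.factorial : ℂ) ≠ 0 := by exact_mod_cast Nat.factorial_ne_zero n
  field_simp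

theorem T_congr {f g : ℂ → ℂ} (h : f =ᶠ[𝓝 0] g) : T f = T g := by
  ext n
  simp only [T, PowerSeries.coeff_mk]
  rw [h.iteratedDeriv_eq n]

theorem prod_dvd (Z : Finset ℂ) (P : ℂ[X]) (h : ∀ b ∈ Z, P.eval b = 0) :
    (∏ b ∈ Z, (X - C b)) ∣ P := by
  refine Finset.prod_dvd_of_coprime ?_ fun b hb => ?_
  · intro b _ b' _ hbb
    exact pairwise_coprime_X_sub_C (s := fun b : ℂ => b) Function.injective_id hbb
  · rw [dvd_iff_isRoot]
    exact h b hb

end ModPF

open ModPF in
theorem mPF : StmPF := by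
  classical
  intro E R Z ρ B m hρ hE0 hZ hZ' hB
  set W : ℂ[X] := ∏ b ∈ Z, (X - C b) with hW
  obtain ⟨E1, hE1⟩ : W ∣ E := prod_dvd Z E fun b hb => (hZ b hb).1
  set Eb : ℂ → ℂ[X] := fun b => (∏ b' ∈ Z.erase b, (X - C b')) * E1 with hEb
  have hEbE : ∀ b ∈ Z, (X - C b) * Eb b = E := by
    intro b hb
    rw [hEb, hE1, ← mul_assoc, hW]
    rw [Finset.mul_prod_erase Z (fun b => X - C b) hb]
  have hEder : ∀ b ∈ Z, (Eb b).eval b = E.derivative.eval b := by
    intro b hb
    rw [← hEbE b hb, derivative_mul]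
    simp
  have hEb0 : ∀ b ∈ Z, ∀ b0 ∈ Z, b ≠ b0 → (Eb b).eval b0 = 0 := by
    intro b _ b0 hb0 hne
    simp only [hEb]
    rw [eval_mul, eval_prod, Finset.prod_eq_zero (Finset.mem_erase.2 ⟨hne.symm, hb0⟩) (by simp),
      zero_mul]
  set c : ℂ → ℂ := fun b => R.eval b / E.derivative.eval b with hc
  obtain ⟨G, hG⟩ : W ∣ R - ∑ b ∈ Z, C (c b) * Eb b := by
    refine prod_dvd Z _ fun b0 hb0 => ?_
    rw [eval_sub, eval_finsetSum, Finset.sum_eq_single_of_mem b0 hb0]
    · rw [eval_mul, eval_C, hEder b0 hb0]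
      simp only [hc]
      rw [div_mul_cancel₀ _ (hZ b0 hb0).2.1, sub_self]
    · intro b hb hne
      rw [eval_mul, hEb0 b hb b0 hb0 hne, mul_zero]
  have hR : R = ∑ b ∈ Z, C (c b) * Eb b + W * G := by
    rw [← hG]
    ring
  have hb0 : ∀ b ∈ Z, b ≠ 0 := by
    rintro b hb rfl
    exact hE0 (hZ 0 hb).1
  -- `E1` has no zero in the closed disc
  have hE1ne : ∀ t : ℂ, ‖t‖ ≤ ρ → E1.eval t ≠ 0 := by
    intro t ht h0
    have h1 : E.eval t = 0 := by rw [hE1, eval_mul, h0, mul_zero]
    have h2 := hZ' t ht h1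
    apply (hZ t h2).2.1
    rw [← hEder t h2]
    simp only [hEb]
    rw [eval_mul, h0, mul_zero]
  -- power series
  have hEc : PowerSeries.constantCoeff (E : PowerSeries ℂ) ≠ 0 := by
    rw [Polynomial.constantCoeff_coe, coeff_zero_eq_eval_zero]
    exact hE0
  have hEE : (E : PowerSeries ℂ) * (E : PowerSeries ℂ)⁻¹ = 1 := PowerSeries.mul_inv_cancel _ hEc
  have hsing : ∀ b ∈ Z, PowerSeries.coeff m ((Eb b : PowerSeries ℂ) * (E : PowerSeries ℂ)⁻¹) =
      -(1 / b ^ (m + 1)) := by
    intro b hb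
    set v : ℂˣ := Units.mk0 b (hb0 b hb) with hv
    have h1 : (PowerSeries.X - PowerSeries.C b) * (-PowerSeries.invUnitsSub v) = 1 := by
      have h2 := PowerSeries.invUnitsSub_mul_sub v
      have h3 : (v : ℂ) = b := rfl
      rw [h3] at h2
      linear_combination h2
    have h2 : (PowerSeries.X - PowerSeries.C b) * (Eb b : PowerSeries ℂ) = (E : PowerSeries ℂ) := by
      have h3 := congrArg (fun p : ℂ[X] => (p : PowerSeries ℂ)) (hEbE b hb)
      simpa using h3
    have h3 : (Eb b : PowerSeries ℂ) * (E : PowerSeries ℂ)⁻¹ = -PowerSeries.invUnitsSub v := by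
      calc (Eb b : PowerSeries ℂ) * (E : PowerSeries ℂ)⁻¹
          = (Eb b : PowerSeries ℂ) * (E : PowerSeries ℂ)⁻¹ *
            ((PowerSeries.X - PowerSeries.C b) * (-PowerSeries.invUnitsSub v)) := by
            rw [h1, mul_one]
        _ = ((PowerSeries.X - PowerSeries.C b) * (Eb b : PowerSeries ℂ)) *
            (E : PowerSeries ℂ)⁻¹ * (-PowerSeries.invUnitsSub v) := by ring
        _ = -PowerSeries.invUnitsSub v := by rw [h2, hEE, one_mul]
    rw [h3, map_neg, PowerSeries.coeff_invUnitsSub]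
    simp [divp, hv]
  -- the rest
  set g : ℂ → ℂ := fun z => G.eval z / E1.eval z with hg
  have hgan : ∀ z, ‖z‖ ≤ ρ → AnalyticAt ℂ g z := by
    intro z hz
    exact (G.differentiable.analyticAt z).fun_div (E1.differentiable.analyticAt z) (hE1ne z hz)
  have hTg : T g * (E1 : PowerSeries ℂ) = (G : PowerSeries ℂ) := by
    rw [← T_poly E1, ← T_poly G, ← T_mul (hgan 0 (by simpa using hρ.le))
      (E1.differentiable.analyticAt 0)]
    refine T_congr ?_
    have h1 : ∀ᶠ z : ℂ in 𝓝 0, ‖z‖ < ρ := by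
      have := Metric.ball_mem_nhds (0 : ℂ) hρ
      filter_upwards [this] with z hz
      simpa using hz
    filter_upwards [h1] with z hz
    simp only [hg]
    rw [div_mul_cancel₀ _ (hE1ne z hz.le)]
  have hWG : (W : PowerSeries ℂ) * (G : PowerSeries ℂ) * (E : PowerSeries ℂ)⁻¹ = T g := by
    have h1 : (W : PowerSeries ℂ) * (E1 : PowerSeries ℂ) = (E : PowerSeries ℂ) := by
      rw [hE1, Polynomial.coe_mul]
    calc (W : PowerSeries ℂ) * (G : PowerSeries ℂ) * (E : PowerSeries ℂ)⁻¹
        = T g * (((W : PowerSeries ℂ) * (E1 : PowerSeries ℂ)) * (E : PowerSeries ℂ)⁻¹) := by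
          rw [← hTg]
          ring
      _ = T g := by rw [h1, hEE, mul_one]
  have hcoef : PowerSeries.coeff m ((R : PowerSeries ℂ) * (E : PowerSeries ℂ)⁻¹) +
      ∑ b ∈ Z, R.eval b / (E.derivative.eval b * b ^ (m + 1)) = PowerSeries.coeff m (T g) := by
    have h1 : (R : PowerSeries ℂ) = ∑ b ∈ Z, PowerSeries.C (c b) * (Eb b : PowerSeries ℂ) +
        (W : PowerSeries ℂ) * (G : PowerSeries ℂ) := by
      conv_lhs => rw [hR]
      rw [Polynomial.coe_add, Polynomial.coe_mul]
      congr 1
      rw [← Polynomial.coeToPowerSeries.ringHom_apply, map_sum]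
      refine Finset.sum_congr rfl fun b _ => ?_
      rw [Polynomial.coeToPowerSeries.ringHom_apply, Polynomial.coe_mul, Polynomial.coe_C]
    rw [h1, add_mul, hWG, Finset.sum_mul, map_add, map_sum]
    have h2 : ∀ b ∈ Z, PowerSeries.coeff m (PowerSeries.C (c b) * (Eb b : PowerSeries ℂ) *
        (E : PowerSeries ℂ)⁻¹) = -(R.eval b / (E.derivative.eval b * b ^ (m + 1))) := by
      intro b hb
      rw [mul_assoc, PowerSeries.coeff_C_mul, hsing b hb]
      simp only [hc]
      have h3 := (hZ b hb).2.1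
      have h4 := hb0 b hb
      field_simp
    rw [Finset.sum_congr rfl h2, Finset.sum_neg_distrib]
    ring
  rw [hcoef]
  simp only [T, PowerSeries.coeff_mk]
  set M : ℝ := B + ∑ b ∈ Z, ‖R.eval b / E.derivative.eval b‖ / (ρ - ‖b‖) with hM
  have hgd : DiffContOnCl ℂ g (Metric.ball 0 ρ) := by
    refine DifferentiableOn.diffContOnCl ?_
    intro z hz
    have h1 : ‖z‖ ≤ ρ := by
      have h2 := Metric.closure_ball_subset_closedBall hz
      simpa using h2
    exact (hgan z h1).differentiableAt.differentiableWithinAt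
  have hgb : ∀ z ∈ Metric.sphere (0 : ℂ) ρ, ‖g z‖ ≤ M := by
    intro z hz
    have hz' : ‖z‖ = ρ := by simpa using hz
    have hzb : ∀ b ∈ Z, z - b ≠ 0 := by
      intro b hb h0
      have h1 : z = b := sub_eq_zero.1 h0
      have h2 := (hZ b hb).2.2
      rw [← h1, hz'] at h2
      exact lt_irrefl _ h2
    have hEz : E.eval z ≠ 0 := by
      intro h0
      have h1 := hZ' z hz'.le h0
      have h2 := (hZ z h1).2.2
      linarith
    have hE1z := hE1ne z hz'.le
    have h1 : g z = R.eval z / E.eval z - ∑ b ∈ Z, c b / (z - b) := by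
      have h2 : ∀ b ∈ Z, c b / (z - b) = c b * (Eb b).eval z / E.eval z := by
        intro b hb
        have h3 : E.eval z = (z - b) * (Eb b).eval z := by
          conv_lhs => rw [← hEbE b hb]
          rw [eval_mul, eval_sub, eval_X, eval_C]
        have h4 : (Eb b).eval z ≠ 0 := by
          intro h5
          apply hEz
          rw [h3, h5, mul_zero]
        rw [h3]
        have h5 := hzb b hb
        field_simp
      rw [Finset.sum_congr rfl h2, ← Finset.sum_div, ← sub_div]
      have h3 : R.eval z - ∑ b ∈ Z, c b * (Eb b).eval z = W.eval z * G.eval z := by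
        conv_lhs => rw [hR]
        rw [eval_add, eval_finsetSum, eval_mul]
        simp only [eval_mul, eval_C]
        ring
      have h4 : E.eval z = W.eval z * E1.eval z := by
        conv_lhs => rw [hE1]
        rw [eval_mul]
      have h5 : W.eval z ≠ 0 := by
        intro h6
        apply hEz
        rw [h4, h6, zero_mul]
      rw [h3, h4]
      simp only [hg]
      field_simp
    rw [h1, hM]
    refine (norm_sub_le _ _).trans (add_le_add (hB z hz') ?_)
    refine (norm_sum_le _ _).trans (Finset.sum_le_sum fun b hb => ?_)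
    rw [norm_div]
    have h2 : ρ - ‖b‖ ≤ ‖z - b‖ := by
      rw [← hz']
      exact norm_sub_norm_le z b
    have h3 : 0 < ρ - ‖b‖ := by linarith [(hZ b hb).2.2]
    exact div_le_div_of_nonneg_left (norm_nonneg _) h3 h2
  have hcau := Complex.norm_iteratedDeriv_le_of_forall_mem_sphere_norm_le m hρ hgd hgb
  rw [norm_div, Complex.norm_natCast]
  have h4 : (0 : ℝ) < m.factorial := by exact_mod_cast Nat.factorial_pos m
  rw [div_le_iff₀ h4]
  refine hcau.trans (le_of_eq ?_)
  rw [inv_pow]
  field_simp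

end Pool.Agent.T6.H48.ZZ
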