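import Pool.Agent.T6.H48.ZZ.Defs

/-! Module PFZ of project ZZ: exact partial fractions for the coefficients of `R / E`. -/

namespace Pool.Agent.T6.H48.ZZ

open Polynomial Set Filter Topology

theorem ModPFZ.inv_X_sub_C (b : ℂ) (hb : b ≠ 0) :
    ((PowerSeries.X - PowerSeries.C b : PowerSeries ℂ))⁻¹ =
      PowerSeries.mk (fun m => - (b ^ (m + 1))⁻¹) := by
  symm
  rw [PowerSeries.eq_inv_iff_mul_eq_one]
  · ext n
    rw [mul_sub, map_sub]
    cases n with
    | zero =>
      simp only [PowerSeries.coeff_zero_mul_X, PowerSeries.coeff_mul_C, PowerSeries.coeff_mk,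
        PowerSeries.coeff_zero_one]
      field_simp
      norm_num
    | succ n =>
      rw [PowerSeries.coeff_succ_mul_X, PowerSeries.coeff_mul_C, PowerSeries.coeff_mk,
        PowerSeries.coeff_mk, PowerSeries.coeff_one, if_neg (Nat.succ_ne_zero n)]
      field_simp
      ring
  · simp [hb]

theorem ModPFZ.nodup (E : ℂ[X]) (hE : E ≠ 0)
    (h : ∀ b : ℂ, E.eval b = 0 → E.derivative.eval b ≠ 0) : E.roots.Nodup := by
  classical
  rw [Multiset.nodup_iff_count_le_one]
  intro b
  rw [Polynomial.count_roots]
  by_contra hlt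
  push Not at hlt
  have := (Polynomial.one_lt_rootMultiplicity_iff_isRoot hE).1 hlt
  exact h b this.1 this.2

theorem mPFZ : StmPFZ := by
  classical
  intro E R m h0 hm hE
  have hE0 : E ≠ 0 := by
    rintro rfl
    simp at h0
  have hnd := ModPFZ.nodup E hE0 hE
  have hcard : E.roots.toFinset.card = E.natDegree := by
    rw [Multiset.toFinset_card_of_nodup hnd]
    exact ((IsAlgClosed.splits E).natDegree_eq_card_roots).symm
  have hmem : ∀ b ∈ E.roots.toFinset, E.eval b = 0 := by
    intro b hb
    rw [Multiset.mem_toFinset, Polynomial.mem_roots hE0] at hb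
    exact hb
  -- division
  have hdiv : E * (R / E) + R % E = R := EuclideanDomain.div_add_mod R E
  have hev : ∀ b ∈ E.roots.toFinset, (R % E).eval b = R.eval b := by
    intro b hb
    have := congrArg (Polynomial.eval b) hdiv
    rw [eval_add, eval_mul, hmem b hb, zero_mul, zero_add] at this
    exact this
  have hfac : ∀ b ∈ E.roots.toFinset, (X - C b) * (E /ₘ (X - C b)) = E := by
    intro b hb
    exact Polynomial.mul_divByMonic_eq_iff_isRoot.2 (hmem b hb)
  have hder : ∀ b ∈ E.roots.toFinset, (E /ₘ (X - C b)).eval b = E.derivative.eval b := by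
    intro b hb
    have := congrArg (fun p => (derivative p).eval b) (hfac b hb)
    simpa using this
  set T : ℂ[X] := ∑ b ∈ E.roots.toFinset,
    C (R.eval b / E.derivative.eval b) * (E /ₘ (X - C b)) with hT
  have hTR : R % E = T := by
    by_cases hd : E.natDegree = 0
    · -- no roots
      have hz : E.roots.toFinset = ∅ := by
        rw [← Finset.card_eq_zero, hcard, hd]
      have h1 : R % E = 0 := by
        rw [EuclideanDomain.mod_eq_zero]
        have : IsUnit E := by
          rw [Polynomial.isUnit_iff_degree_eq_zero, Polynomial.degree_eq_natDegree hE0, hd]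
          rfl
        exact this.dvd
      rw [h1, hT, hz, Finset.sum_empty]
    · apply Polynomial.eq_of_degrees_lt_of_eval_finset_eq E.roots.toFinset
      · rw [hcard, ← Polynomial.degree_eq_natDegree hE0]
        exact EuclideanDomain.mod_lt R hE0
      · rw [hcard, ← Polynomial.degree_eq_natDegree hE0]
        apply lt_of_le_of_lt (Polynomial.degree_sum_le _ _)
        rw [Finset.sup_lt_iff]
        · intro b hb
          have h1 : (C (R.eval b / E.derivative.eval b) * (E /ₘ (X - C b))).degree ≤
              (E /ₘ (X - C b)).degree := by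
            rw [← Polynomial.smul_eq_C_mul]
            exact Polynomial.degree_smul_le _ _
          apply lt_of_le_of_lt h1
          refine Polynomial.degree_divByMonic_lt _ _ hE0 ?_
          rw [degree_X_sub_C]
          exact zero_lt_one
        · rw [Polynomial.degree_eq_natDegree hE0]
          exact WithBot.bot_lt_coe _
      · intro b hb
        rw [hev b hb, hT, eval_finsetSum, Finset.sum_eq_single b]
        · rw [eval_mul, eval_C, hder b hb, div_mul_cancel₀ _ (hE b (hmem b hb))]
        · intro b' hb' hne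
          rw [eval_mul, eval_C]
          have h1 := congrArg (Polynomial.eval b) (hfac b' hb')
          rw [eval_mul, hmem b hb, eval_sub, eval_X, eval_C] at h1
          have h2 : b - b' ≠ 0 := sub_ne_zero.2 (Ne.symm hne)
          have h3 := (mul_eq_zero.1 h1).resolve_left h2
          rw [h3, mul_zero]
        · intro hb'
          exact absurd hb hb'
  -- power series
  have hc0 : PowerSeries.constantCoeff (E : PowerSeries ℂ) ≠ 0 := by
    rw [← PowerSeries.coeff_zero_eq_constantCoeff_apply, Polynomial.coeff_coe,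
      Polynomial.coeff_zero_eq_eval_zero]
    exact h0
  have hb0 : ∀ b ∈ E.roots.toFinset, b ≠ 0 := by
    rintro b hb rfl
    exact h0 (hmem 0 hb)
  have hinv : ∀ b ∈ E.roots.toFinset, ((E /ₘ (X - C b) : ℂ[X]) : PowerSeries ℂ) *
      (E : PowerSeries ℂ)⁻¹ = (PowerSeries.X - PowerSeries.C b : PowerSeries ℂ)⁻¹ := by
    intro b hb
    have hcb : PowerSeries.constantCoeff (PowerSeries.X - PowerSeries.C b : PowerSeries ℂ) ≠ 0 := by
      simp [hb0 b hb]
    rw [PowerSeries.eq_inv_iff_mul_eq_one hcb]
    have h1 : (PowerSeries.X - PowerSeries.C b : PowerSeries ℂ) *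
        ((E /ₘ (X - C b) : ℂ[X]) : PowerSeries ℂ) = (E : PowerSeries ℂ) := by
      have := congrArg (fun p : ℂ[X] => (p : PowerSeries ℂ)) (hfac b hb)
      simpa using this
    calc ((E /ₘ (X - C b) : ℂ[X]) : PowerSeries ℂ) * (E : PowerSeries ℂ)⁻¹ *
          (PowerSeries.X - PowerSeries.C b : PowerSeries ℂ)
        = ((PowerSeries.X - PowerSeries.C b : PowerSeries ℂ) *
          ((E /ₘ (X - C b) : ℂ[X]) : PowerSeries ℂ)) * (E : PowerSeries ℂ)⁻¹ := by ring
      _ = 1 := by rw [h1, PowerSeries.mul_inv_cancel _ hc0]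
  have hR : (R : PowerSeries ℂ) * (E : PowerSeries ℂ)⁻¹ = ((R / E : ℂ[X]) : PowerSeries ℂ) +
      ∑ b ∈ E.roots.toFinset, PowerSeries.C (R.eval b / E.derivative.eval b) *
        (PowerSeries.X - PowerSeries.C b : PowerSeries ℂ)⁻¹ := by
    have h1 : (R : PowerSeries ℂ) = (E : PowerSeries ℂ) * ((R / E : ℂ[X]) : PowerSeries ℂ) +
        ∑ b ∈ E.roots.toFinset, PowerSeries.C (R.eval b / E.derivative.eval b) *
          ((E /ₘ (X - C b) : ℂ[X]) : PowerSeries ℂ) := by
      have h2 : R = E * (R / E) + T := by rw [← hTR]; exact hdiv.symm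
      have h3 := congrArg (Polynomial.coeToPowerSeries.ringHom (R := ℂ)) h2
      rw [map_add, map_mul, hT, map_sum] at h3
      simpa using h3
    conv_lhs => rw [h1]
    rw [add_mul, mul_right_comm, PowerSeries.mul_inv_cancel _ hc0, one_mul, Finset.sum_mul]
    congr 1
    apply Finset.sum_congr rfl
    intro b hb
    rw [mul_assoc, hinv b hb]
  rw [hR, map_add, map_sum, Polynomial.coeff_coe, Polynomial.coeff_eq_zero_of_natDegree_lt,
    zero_add, ← Finset.sum_neg_distrib]
  · apply Finset.sum_congr rfl
    intro b hb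
    rw [PowerSeries.coeff_C_mul, ModPFZ.inv_X_sub_C b (hb0 b hb), PowerSeries.coeff_mk]
    have h1 := hE b (hmem b hb)
    have h2 := hb0 b hb
    field_simp
  · refine lt_of_le_of_lt ?_ hm
    exact Polynomial.natDegree_le_natDegree (Polynomial.degree_div_le R E)

end Pool.Agent.T6.H48.ZZ
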