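import Pool.Agent.T6.H48.ZZ.Basic

namespace Pool.Agent.T6.H48.ZZ

open Polynomial Set Filter Topology

theorem mPOS (hC : StmCURVE) (hz : StmZINJ) (hE : StmEST) (hE0 : StmESTZ) (hA : StmLCA)
    (hB : StmLCB) (hM : StmLCM) (h1 : StmLC1) (h2 : StmLC2) (h0 : StmLC0) (hL : StmLOCAL)
    (hG : StmGLOB) : StmPOS := by
  intro D R hD hR
  obtain ⟨tau, htau⟩ := hC D hD
  have hT : 0 < D.thm := D.thm_pos hD
  have hLC : ∀ θ₀ ∈ Icc 0 D.thm, D.LC R tau θ₀ := by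
    intro θ₀ hθ₀
    rcases eq_or_lt_of_le hθ₀.1 with h | h
    · subst h
      have hne : Nonempty (Fin D.n) := ⟨⟨0, D.hn⟩⟩
      obtain ⟨j₀, hj₀⟩ := Finite.exists_min D.a
      by_cases hj : ∃ j₁, j₀ ≠ j₁ ∧ D.a j₀ = D.a j₁
      · obtain ⟨j₁, hj₁, hj₂⟩ := hj
        exact hE D R tau 0 htau (hM D R tau htau hR ⟨j₀, j₁, hj₁, hj₂, hj₀⟩)
      · push Not at hj
        refine hE D R tau 0 htau (hB D R tau hD htau hR ⟨j₀, fun j hjj => ?_⟩)
        exact lt_of_le_of_ne (hj₀ j) (hj j hjj.symm)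
    · rcases eq_or_lt_of_le hθ₀.2 with h' | h'
      · subst h'
        rcases Nat.eq_zero_or_pos D.r with hr | hr
        · exact hE0 D R tau _ htau (h0 D R tau hD htau hR hr)
        · rcases eq_or_lt_of_le (show 1 ≤ D.r from hr) with hr1 | hr1
          · exact hE D R tau _ htau (h1 D R tau hD htau hR hr1.symm)
          · exact hE D R tau _ htau (h2 D R tau htau hR hr1)
      · exact hE D R tau _ htau (hA D R tau htau hR θ₀ ⟨h, h'⟩)
  obtain ⟨K, hK⟩ := hG D.thm (fun m => {θ | θ ∈ Ioo 0 D.thm ∧ D.P R m (D.zz tau θ) = 0}) hT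
    (fun θ₀ hθ₀ => hL D R tau θ₀ htau hR hθ₀ (hLC θ₀ hθ₀))
  refine ⟨K, fun m H hH hPH => ?_⟩
  obtain ⟨Z, hZ, hZc⟩ := hK m
  rw [sub_zero] at hZc
  refine hZc.trans ?_
  obtain ⟨_, hinj, hzz⟩ := hz D tau htau
  have hcard : (Z.image (D.zz tau)).card = Z.card := by
    apply Finset.card_image_of_injOn
    intro x hx y hy hxy
    exact hinj (hZ x hx).1.1 (hZ y hy).1.1 hxy
  have hsub : Z.image (D.zz tau) ⊆ H.roots.toFinset.filter (fun x => 0 < x) := by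
    intro w hw
    rw [Finset.mem_image] at hw
    obtain ⟨x, hx, rfl⟩ := hw
    obtain ⟨⟨hx1, hx2⟩, _⟩ := hZ x hx
    have hpos := (hzz x hx1).1
    rw [Finset.mem_filter, Multiset.mem_toFinset, mem_roots hH]
    refine ⟨?_, hpos⟩
    obtain ⟨e, he, he'⟩ := hPH _ hpos
    rw [hx2, zero_mul] at he'
    exact he'.symm
  unfold posr
  rw [← hcard]
  exact_mod_cast Finset.card_le_card hsub

end Pool.Agent.T6.H48.ZZ
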