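import Pool.Agent.T6.H48.ZZ.Defs

/-! Module ROOT of project ZZ: counting roots. -/

namespace Pool.Agent.T6.H48.ZZ

open Polynomial Set Filter Topology

theorem ModROOT.posr_le (H : ℝ[X]) (hH : H ≠ 0) :
    posr H ≤ ((H.map (algebraMap ℝ ℂ)).roots.filter (fun w => w.im = 0 ∧ 0 < w.re)).card := by
  classical
  have hm : H.map (algebraMap ℝ ℂ) ≠ 0 := by
    rwa [Ne, Polynomial.map_eq_zero]
  have hle : ((H.roots.toFinset.filter (fun x => 0 < x)).image (fun x : ℝ => (x : ℂ))).val ≤
      (H.map (algebraMap ℝ ℂ)).roots.filter (fun w => w.im = 0 ∧ 0 < w.re) := by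
    rw [Multiset.le_iff_subset (Finset.nodup _)]
    intro w hw
    rw [Finset.mem_val, Finset.mem_image] at hw
    obtain ⟨x, hx, rfl⟩ := hw
    rw [Finset.mem_filter, Multiset.mem_toFinset, Polynomial.mem_roots hH] at hx
    rw [Multiset.mem_filter, Polynomial.mem_roots hm]
    refine ⟨?_, by simp, by simpa using hx.2⟩
    have := hx.1.map (f := algebraMap ℝ ℂ)
    simpa using this
  have h1 := Multiset.card_le_card hle
  rw [Finset.card_val, Finset.card_image_of_injective _ Complex.ofReal_injective] at h1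
  exact h1

theorem mROOT : StmROOT := by
  classical
  constructor
  · intro H hH
    have h1 := ModROOT.posr_le H hH
    have h2 := Multiset.filter_add_not (fun w : ℂ => w.im = 0 ∧ 0 < w.re)
      (H.map (algebraMap ℝ ℂ)).roots
    have h3 := congrArg Multiset.card h2
    rw [Multiset.card_add] at h3
    have h4 : (H.map (algebraMap ℝ ℂ)).roots.card ≤ H.natDegree := by
      have := Polynomial.card_roots' (H.map (algebraMap ℝ ℂ))
      rwa [Polynomial.natDegree_map] at this
    unfold out
    have h5 : ((H.map (algebraMap ℝ ℂ)).roots.filter (fun w => ¬ (w.im = 0 ∧ 0 < w.re))).card =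
        (Multiset.filter (fun w : ℂ => ¬ (w.im = 0 ∧ 0 < w.re)) (H.map (algebraMap ℝ ℂ)).roots).card := by
      congr 1
    omega
  · intro G H hH hGH
    have hm : H.map (algebraMap ℝ ℂ) ≠ 0 := by
      rwa [Ne, Polynomial.map_eq_zero]
    have h1 : (G.map (algebraMap ℝ ℂ)).roots ≤ (H.map (algebraMap ℝ ℂ)).roots :=
      Polynomial.roots.le_of_dvd hm (Polynomial.map_dvd _ hGH)
    unfold out
    exact Multiset.card_le_card (Multiset.filter_le_filter _ h1)

end Pool.Agent.T6.H48.ZZ
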