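import Pool.Agent.T6.H48.ZZ.B43

/-!
Project ZZ: local lemmas used by the modules LC2, LCM (helper43).
-/

namespace Pool.Agent.T6.H48.ZZ.C43

open Polynomial Set Filter Topology
open Pool.Agent.T6.H48.ZZ Pool.Agent.T6.H48.ZZ.B43

theorem S_contAt (D : Dat) (w : ℂ) (h : D.q w ≠ 0) : ContinuousAt D.S w := by
  unfold Dat.S
  refine continuousAt_const.add ?_
  refine tendsto_finsetSum _ fun j _ => ?_
  refine ContinuousAt.div continuousAt_id (continuousAt_const.sub continuousAt_id) ?_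
  intro h0
  exact h ((q_eq_zero_iff D w).2 ⟨j, (sub_eq_zero.1 h0).symm⟩)

/-- size of a polynomial near a point -/
theorem poly_local (R : ℝ[X]) (hR : R ≠ 0) (t₀ : ℂ) :
    ∃ k : ℕ, ∃ m₁ > 0, ∃ m₂ > 0, ∀ᶠ w in 𝓝 t₀,
      m₁ * ‖w - t₀‖ ^ k ≤ ‖aeval w R‖ ∧ ‖aeval w R‖ ≤ m₂ * ‖w - t₀‖ ^ k := by
  have hR' : R.map (algebraMap ℝ ℂ) ≠ 0 :=
    (Polynomial.map_ne_zero_iff (algebraMap ℝ ℂ).injective).2 hR
  obtain ⟨R1, h1, h2⟩ := Polynomial.exists_eq_pow_rootMultiplicity_mul_and_not_dvd _ hR' t₀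
  set k := Polynomial.rootMultiplicity t₀ (R.map (algebraMap ℝ ℂ))
  have h3 : R1.eval t₀ ≠ 0 := fun h => h2 (dvd_iff_isRoot.2 h)
  have h4 : 0 < ‖R1.eval t₀‖ := norm_pos_iff.2 h3
  have h5 : ContinuousAt (fun w => ‖R1.eval w‖) t₀ := R1.continuous.norm.continuousAt
  have h6 : ∀ᶠ w in 𝓝 t₀, ‖R1.eval t₀‖ / 2 < ‖R1.eval w‖ :=
    h5.eventually_const_lt (half_lt_self h4)
  have h7 : ∀ᶠ w in 𝓝 t₀, ‖R1.eval w‖ < 2 * ‖R1.eval t₀‖ :=
    h5.eventually_lt_const (by linarith)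
  refine ⟨k, ‖R1.eval t₀‖ / 2, by positivity, 2 * ‖R1.eval t₀‖, by positivity, ?_⟩
  filter_upwards [h6, h7] with w h6 h7
  have h8 : ‖aeval w R‖ = ‖w - t₀‖ ^ k * ‖R1.eval w‖ := by
    rw [Polynomial.aeval_def, ← eval_map, h1]
    simp [norm_pow]
  rw [h8]
  have h9 : 0 ≤ ‖w - t₀‖ ^ k := by positivity
  constructor <;> nlinarith

/-- comparison of `F` at two points of comparable distance from `t₀` -/
theorem F_ratio (D : Dat) (R : ℝ[X]) (hR : R ≠ 0) (t₀ : ℂ) (K : ℝ) (hK : 1 ≤ K) :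
    ∃ η > 0, ∃ B > 0, ∃ k : ℕ, ∃ m > 0, ∀ b t : ℂ, 0 < ‖b - t₀‖ → ‖b - t₀‖ < η →
      0 < ‖t - t₀‖ → ‖t - t₀‖ < η → ‖b - t₀‖ ≤ K * ‖t - t₀‖ → ‖t - t₀‖ ≤ K * ‖b - t₀‖ →
      aeval b D.L ≠ 0 ∧ ‖D.F R b‖ ≤ B * ‖D.F R t‖ ∧ m * ‖t - t₀‖ ^ k ≤ ‖D.F R t‖ := by
  obtain ⟨k, m₁, hm₁, m₂, hm₂, h1⟩ := poly_local R hR t₀
  obtain ⟨l, n₁, hn₁, n₂, hn₂, h2⟩ := poly_local D.L (L_ne_zero D) t₀
  obtain ⟨η, hη, h3⟩ := Metric.eventually_nhds_iff.1 (h1.and h2)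
  refine ⟨min η 1, by positivity, m₂ * n₂ / (m₁ * n₁) * K ^ (k + l), by positivity, k, m₁ / n₂,
    by positivity, ?_⟩
  intro b t hb hb' ht ht' hbt htb
  obtain ⟨⟨e1, e2⟩, e3, e4⟩ := h3 (show dist b t₀ < η by
    rw [dist_eq_norm]; exact hb'.trans_le (min_le_left _ _))
  obtain ⟨⟨e5, e6⟩, e7, e8⟩ := h3 (show dist t t₀ < η by
    rw [dist_eq_norm]; exact ht'.trans_le (min_le_left _ _))
  set x := ‖b - t₀‖
  set y := ‖t - t₀‖
  have hLb : 0 < ‖aeval b D.L‖ := lt_of_lt_of_le (by positivity) e3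
  have hLt : 0 < ‖aeval t D.L‖ := lt_of_lt_of_le (by positivity) e7
  have hy1 : y ≤ 1 := (ht'.trans_le (min_le_right _ _)).le
  have f1 : ‖D.F R b‖ ≤ m₂ * x ^ k / (n₁ * x ^ l) := by
    rw [Dat.F, norm_div]
    exact div_le_div₀ (by positivity) e2 (by positivity) e3
  have f2 : m₁ * y ^ k / (n₂ * y ^ l) ≤ ‖D.F R t‖ := by
    rw [Dat.F, norm_div]
    exact div_le_div₀ (norm_nonneg _) e5 hLt e8
  refine ⟨norm_pos_iff.1 hLb, ?_, ?_⟩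
  · have f3 : m₂ * x ^ k / (n₁ * x ^ l) ≤
        m₂ * n₂ / (m₁ * n₁) * K ^ (k + l) * (m₁ * y ^ k / (n₂ * y ^ l)) := by
      have g1 : x ^ k ≤ K ^ k * y ^ k := by
        rw [← mul_pow]; exact pow_le_pow_left₀ hb.le hbt k
      have g2 : y ^ l ≤ K ^ l * x ^ l := by
        rw [← mul_pow]; exact pow_le_pow_left₀ ht.le htb l
      have g3 : m₂ * n₂ / (m₁ * n₁) * K ^ (k + l) * (m₁ * y ^ k / (n₂ * y ^ l)) =
          m₂ * (K ^ k * y ^ k) * K ^ l / (n₁ * y ^ l) := by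
        rw [pow_add]; field_simp
      rw [g3, div_le_div_iff₀ (by positivity) (by positivity)]
      calc m₂ * x ^ k * (n₁ * y ^ l) ≤ m₂ * (K ^ k * y ^ k) * (n₁ * (K ^ l * x ^ l)) := by
            gcongr
        _ = m₂ * (K ^ k * y ^ k) * K ^ l * (n₁ * x ^ l) := by ring
    refine f1.trans (f3.trans ?_)
    exact mul_le_mul_of_nonneg_left f2 (by positivity)
  · refine le_trans ?_ f2
    have g4 : y ^ l ≤ 1 := pow_le_one₀ ht.le hy1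
    rw [div_mul_eq_mul_div, div_le_div_iff₀ (by positivity) (by positivity)]
    have : m₁ * y ^ k * (n₂ * y ^ l) ≤ m₁ * y ^ k * (n₂ * 1) := by gcongr
    linarith

theorem sin_lb (u x : ℝ) (h0 : 0 ≤ u) (h1 : u ≤ x) (h2 : x ≤ Real.pi - u) :
    Real.sin u ≤ Real.sin x := by
  rcases le_total x (Real.pi / 2) with h | h
  · exact Real.sin_le_sin_of_le_of_le_pi_div_two (by linarith [Real.pi_pos]) h h1
  · rw [← Real.sin_pi_sub x]
    exact Real.sin_le_sin_of_le_of_le_pi_div_two (by linarith [Real.pi_pos]) (by linarith)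
      (by linarith)

theorem seg_im_lb (t b : ℂ) (hb : 0 ≤ b.im) (u : ℝ) (h0 : 0 ≤ u)
    (h1 : 2 * u ≤ Complex.arg t) (h2 : 2 * u ≤ Real.pi - Complex.arg t) (s : ℝ)
    (hs : s ∈ Icc (0:ℝ) (1/2)) : ‖seg t b s‖ * Real.sin u ≤ (seg t b s).im := by
  rw [seg_im]
  refine mul_le_mul_of_nonneg_left (sin_lb u _ h0 ?_ ?_) (norm_nonneg _)
  · have h3 := Complex.arg_nonneg_iff.2 hb
    have := hs.1; have := hs.2
    nlinarith
  · have h4 := Complex.arg_le_pi b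
    have := hs.1; have := hs.2
    nlinarith

/-- the gap inequality in the form used below -/
theorem gap_exp (D : Dat) (hGL : StmGAPLB) (z : ℝ) (t b : ℂ) (hz : 0 < z) (ht : 0 < t.im)
    (hb : 0 ≤ b.im) (h1 : D.den z t = 0) (h2 : D.den z b = 0) (h3 : D.A t = Real.pi) (h4 : b ≠ t)
    (σ : ℝ) (hσ : 0 ≤ σ) (M : ℝ) (hM : 0 < M)
    (h5 : ∀ s ∈ Icc (0:ℝ) (1/2), σ ≤ (D.S (seg t b s)).im)
    (h6 : 2 * Real.pi ≤ M * ‖Complex.log b - Complex.log t‖) :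
    (2 * Real.pi / M) ^ 2 * σ / (2 * Real.pi * ((D.n : ℝ) + D.r)) ≤
      Real.log ‖b‖ - Real.log ‖t‖ := by
  obtain ⟨g1, -⟩ := hGL D z t b hz ht.le hb h1 h2 h3 h4 (Or.inl ht)
  refine le_trans ?_ (g1 σ hσ h5)
  have h7 : 2 * Real.pi / M ≤ ‖Complex.log b - Complex.log t‖ := by
    rw [div_le_iff₀ hM]; linarith
  have hn : (1:ℝ) ≤ D.n := by exact_mod_cast D.hn
  have h8 : (0:ℝ) ≤ D.r := Nat.cast_nonneg _
  gcongr

theorem le_of_log (tau x y : ℝ) (h1 : 0 < tau) (h2 : 0 < x)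
    (h : y ≤ Real.log x - Real.log tau) : tau * Real.exp y ≤ x := by
  calc tau * Real.exp y ≤ tau * Real.exp (Real.log x - Real.log tau) := by
        gcongr
    _ = x := by
        rw [Real.exp_sub, Real.exp_log h2, Real.exp_log h1]; field_simp

end Pool.Agent.T6.H48.ZZ.C43
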