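import Mathlib

/-!
Project ZZ (helper48), MP_4d57dd_an: the coefficients of N(t,z)/(Q(t)+z t^r) have a bounded
number of zeros outside (0,∞).
-/

namespace Pool.Agent.T6.H48.ZZ

open Polynomial Set Filter Topology

/-- The data: `Q(t) = c ∏ (1 - t / a j)`, `a j > 0`, `c > 0`, `n ≥ 1` factors, exponent `r`. -/
structure Dat where
  n : ℕ
  a : Fin n → ℝ
  c : ℝ
  r : ℕ
  ha : ∀ j, 0 < a j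
  hc : 0 < c
  hn : 1 ≤ n

namespace Dat

/-- the polynomial `Q` -/
noncomputable def Q (D : Dat) : ℝ[X] := C D.c * ∏ j, (1 - C (D.a j)⁻¹ * X)

/-- `L = r Q - t Q' = Q S` (also `= r D_z - t D_z'` for every `z`) -/
noncomputable def L (D : Dat) : ℝ[X] := C (D.r : ℝ) * D.Q - X * derivative D.Q

/-- `Q` as a complex function -/
noncomputable def q (D : Dat) (t : ℂ) : ℂ := (D.c : ℂ) * ∏ j, (1 - t / (D.a j : ℂ))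

/-- the denominator `D_z(t) = Q(t) + z t^r` as a complex function -/
noncomputable def den (D : Dat) (z : ℝ) (t : ℂ) : ℂ := D.q t + (z : ℂ) * t ^ D.r

/-- the denominator `D_z` as a real polynomial -/
noncomputable def dp (D : Dat) (z : ℝ) : ℝ[X] := D.Q + C z * X ^ D.r

/-- `S(t) = r + ∑ t / (a j - t)` -/
noncomputable def S (D : Dat) (t : ℂ) : ℂ := (D.r : ℂ) + ∑ j, t / ((D.a j : ℂ) - t)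

/-- the argument function `A(t) = ∑ arg(1 - conj t / a j) + r arg t` on the closed upper half plane;
`Q(t) / t^r = |Q(t) / t^r| exp(- i A(t))` -/
noncomputable def A (D : Dat) (t : ℂ) : ℝ :=
  ∑ j, Complex.arg (1 - (starRingEnd ℂ) t / (D.a j : ℂ)) + (D.r : ℝ) * Complex.arg t

/-- the right end of the range of the angle: `π / r` for `r ≥ 1`, `π - π / n` for `r = 0` -/
noncomputable def thm (D : Dat) : ℝ :=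
  if D.r = 0 then Real.pi - Real.pi / (D.n : ℝ) else Real.pi / (D.r : ℝ)

/-- the main case -/
def Main (D : Dat) : Prop := 2 ≤ D.n ∨ 2 ≤ D.r

end Dat

/-- the point `τ(θ) e^{iθ}` -/
noncomputable def pt (tau : ℝ → ℝ) (θ : ℝ) : ℂ := (tau θ : ℂ) * Complex.exp ((θ : ℂ) * Complex.I)

namespace Dat

/-- `tau` parametrises the curve `A = π` by the angle -/
def IsCurve (D : Dat) (tau : ℝ → ℝ) : Prop :=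
  ContinuousOn tau (Ioo 0 D.thm) ∧
    ∀ θ ∈ Ioo 0 D.thm, 0 < tau θ ∧ D.A (pt tau θ) = Real.pi

/-- the value `z(θ) = |Q(t)| / |t|^r > 0`; `t(θ)` is a root of `D_z` for `z = z(θ)` -/
noncomputable def zz (D : Dat) (tau : ℝ → ℝ) (θ : ℝ) : ℝ := ‖D.q (pt tau θ)‖ / tau θ ^ D.r

/-- `P_m(z)`, the coefficient of `t^m` of `R(t) / (Q(t) + z t^r)`, for a real number `z` -/
noncomputable def P (D : Dat) (R : ℝ[X]) (m : ℕ) (z : ℝ) : ℝ :=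
  PowerSeries.coeff m ((R : PowerSeries ℝ) * ((D.dp z : ℝ[X]) : PowerSeries ℝ)⁻¹)

/-- `F = R / L` -/
noncomputable def F (D : Dat) (R : ℝ[X]) (t : ℂ) : ℂ := aeval t R / aeval t D.L

/-- local claim at `θ₀`: for `K/m ≤ |θ-θ₀| ≤ ε` the coefficient is `2 Re (F(t) t^{-m})` up to an
error of at most `|F(t) t^{-m}|` -/
def LC (D : Dat) (R : ℝ[X]) (tau : ℝ → ℝ) (θ₀ : ℝ) : Prop :=
  ∃ ε > 0, ∃ K > 0, ∃ m₀ : ℕ, ∀ m : ℕ, m₀ ≤ m → ∀ θ ∈ Ioo 0 D.thm,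
    K / (m : ℝ) ≤ |θ - θ₀| → |θ - θ₀| ≤ ε →
    |D.P R m (D.zz tau θ) - 2 * (D.F R (pt tau θ) * ((pt tau θ)⁻¹) ^ m).re| ≤
      ‖D.F R (pt tau θ) * ((pt tau θ)⁻¹) ^ m‖

/-- the facts about the roots of `D_z` in a fixed disc of radius `ρ` which imply `LC` -/
def Near (D : Dat) (R : ℝ[X]) (tau : ℝ → ℝ) (θ₀ : ℝ) : Prop :=
  ∃ ε > 0, ∃ ρ > 0, ∃ q > 0, q < 1 ∧ ∃ B > 0, ∃ c > 0, ∃ κ : ℕ, ∀ θ ∈ Ioo 0 D.thm,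
    0 < |θ - θ₀| → |θ - θ₀| ≤ ε →
    tau θ ≤ q * ρ ∧
    (∀ w : ℂ, ‖w‖ = ρ → B⁻¹ ≤ ‖D.den (D.zz tau θ) w‖) ∧
    (∀ b : ℂ, D.den (D.zz tau θ) b = 0 → ‖b‖ ≤ ρ →
      ‖b‖ ≤ q * ρ ∧ aeval b D.L ≠ 0 ∧
        (b = pt tau θ ∨ b = (starRingEnd ℂ) (pt tau θ) ∨
          (‖D.F R b‖ ≤ B * ‖D.F R (pt tau θ)‖ ∧
            tau θ * Real.exp (c * |θ - θ₀|) ≤ ‖b‖))) ∧
    c * |θ - θ₀| ^ κ ≤ ‖D.F R (pt tau θ)‖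

/-- the same with all roots of `D_z` (used for `r = 0`, `t → ∞`) -/
def Near0 (D : Dat) (R : ℝ[X]) (tau : ℝ → ℝ) (θ₀ : ℝ) : Prop :=
  ∃ ε > 0, ∃ B > 0, ∃ c > 0, ∀ θ ∈ Ioo 0 D.thm,
    0 < |θ - θ₀| → |θ - θ₀| ≤ ε →
    (∀ b : ℂ, D.den (D.zz tau θ) b = 0 →
      aeval b D.L ≠ 0 ∧
        (b = pt tau θ ∨ b = (starRingEnd ℂ) (pt tau θ) ∨
          (‖D.F R b‖ ≤ B * ‖D.F R (pt tau θ)‖ ∧
            tau θ * Real.exp (c * |θ - θ₀|) ≤ ‖b‖)))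

end Dat

/-- the path from `t` to `b` which is a segment in the logarithmic coordinate -/
noncomputable def seg (t b : ℂ) (s : ℝ) : ℂ :=
  Complex.exp ((1 - (s : ℂ)) * Complex.log t + (s : ℂ) * Complex.log b)

/-- `Good Zs a b`: the sets `Zs m` have at least `m (b-a)/π - C` elements in `(a,b)` -/
def Good (Zs : ℕ → Set ℝ) (a b : ℝ) : Prop :=
  ∃ K : ℝ, ∀ m : ℕ, ∃ Z : Finset ℝ, (∀ x ∈ Z, x ∈ Zs m ∧ a < x ∧ x < b) ∧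
    (m : ℝ) * (b - a) / Real.pi - K ≤ (Z.card : ℝ)

/-- number of complex zeros (with multiplicity) of a real polynomial outside `(0,∞)` -/
noncomputable def out (H : ℝ[X]) : ℕ :=
  ((H.map (algebraMap ℝ ℂ)).roots.filter (fun w => ¬ (w.im = 0 ∧ 0 < w.re))).card

/-- number of distinct positive real zeros -/
noncomputable def posr (H : ℝ[X]) : ℕ := (H.roots.toFinset.filter (fun x => 0 < x)).card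

/-- coefficient of `t^m` of `N(t,z) / (Q(t) + z t^r)`, a rational function of `z`
(the outer variable of `N` is `t`, the inner one is `z`) -/
noncomputable def coefP (Q : ℝ[X]) (r : ℕ) (N : ℝ[X][X]) (m : ℕ) : RatFunc ℝ :=
  PowerSeries.coeff m
    (((N.map (algebraMap ℝ[X] (RatFunc ℝ)) : (RatFunc ℝ)[X]) : PowerSeries (RatFunc ℝ)) *
      (((Q.map (algebraMap ℝ (RatFunc ℝ)) + C RatFunc.X * X ^ r : (RatFunc ℝ)[X])) :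
        PowerSeries (RatFunc ℝ))⁻¹)

/-- a polynomial in `t` as a polynomial in `t` with coefficients constant in `z` -/
noncomputable def lift (R : ℝ[X]) : ℝ[X][X] := R.map (algebraMap ℝ ℝ[X])

/-- `D_z(0)` as a polynomial in `z` -/
noncomputable def Dat.q0 (D : Dat) : ℝ[X] := C D.c + (if D.r = 0 then X else 0)

/-! ### Statements of the modules -/

/-- ARG -/
def StmARG : Prop := ∀ (D : Dat) (t : ℂ), 0 ≤ t.im → t ≠ 0 →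
  0 ≤ D.A t ∧ D.A t ≤ ((D.n : ℝ) + D.r) * Real.pi ∧
  D.q t / t ^ D.r = ((‖D.q t‖ / ‖t‖ ^ D.r : ℝ) : ℂ) * Complex.exp (-(Complex.I * (D.A t : ℂ)))

/-- MONO -/
def StmMONO : Prop := ∀ (D : Dat) (θ : ℝ), 0 < θ → θ < Real.pi →
  StrictMonoOn (fun x : ℝ => D.A ((x : ℂ) * Complex.exp ((θ : ℂ) * Complex.I))) (Ioi 0) ∧
  (∀ x : ℝ, 0 < x → (D.r : ℝ) * θ < D.A ((x : ℂ) * Complex.exp ((θ : ℂ) * Complex.I)) ∧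
    D.A ((x : ℂ) * Complex.exp ((θ : ℂ) * Complex.I)) < D.n * (Real.pi - θ) + D.r * θ) ∧
  Tendsto (fun x : ℝ => D.A ((x : ℂ) * Complex.exp ((θ : ℂ) * Complex.I))) (𝓝[>] 0)
    (𝓝 ((D.r : ℝ) * θ)) ∧
  Tendsto (fun x : ℝ => D.A ((x : ℂ) * Complex.exp ((θ : ℂ) * Complex.I))) atTop
    (𝓝 (D.n * (Real.pi - θ) + D.r * θ))

/-- CURVE -/
def StmCURVE : Prop := ∀ D : Dat, D.Main → ∃ tau : ℝ → ℝ, D.IsCurve tau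

/-- GAPI (the integral identity) -/
def StmGAPI : Prop := ∀ (D : Dat) (t b : ℂ), 0 ≤ t.im → 0 ≤ b.im → t ≠ 0 → b ≠ 0 →
  D.q t ≠ 0 → D.q b ≠ 0 →
  (0 < t.im ∨ 0 < b.im ∨ t.re * b.re < 0) →
  ContinuousOn (fun s : ℝ => D.S (seg t b s)) (Icc 0 1) ∧
  (Complex.log b - Complex.log t) * (∫ s in (0:ℝ)..1, D.S (seg t b s)) =
    Complex.I * ((D.A b - D.A t : ℝ) : ℂ) +
      ((Real.log (‖D.q t‖ / ‖t‖ ^ D.r) - Real.log (‖D.q b‖ / ‖b‖ ^ D.r) : ℝ) : ℂ) ∧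
  (∫ s in (0:ℝ)..1, D.S (seg t b s)).im = ∫ s in (0:ℝ)..1, (D.S (seg t b s)).im ∧
  0 < ∫ s in (0:ℝ)..1, (D.S (seg t b s)).im

/-- GAP -/
def StmGAP : Prop := ∀ (D : Dat) (z : ℝ) (t b : ℂ), 0 < z → 0 ≤ t.im → 0 ≤ b.im →
  D.den z t = 0 → D.den z b = 0 → D.A t = Real.pi → b ≠ t →
  (0 < t.im ∨ 0 < b.im ∨ t.re * b.re < 0) →
  ‖t‖ < ‖b‖ ∧ 3 * Real.pi ≤ D.A b ∧ D.A b ≤ ((D.n : ℝ) + D.r) * Real.pi ∧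
  ContinuousOn (fun s : ℝ => D.S (seg t b s)) (Icc 0 1) ∧
  (Complex.log b - Complex.log t) * (∫ s in (0:ℝ)..1, D.S (seg t b s)) =
    Complex.I * ((D.A b - D.A t : ℝ) : ℂ) ∧
  Real.log ‖b‖ - Real.log ‖t‖ =
    ‖Complex.log b - Complex.log t‖ ^ 2 * (∫ s in (0:ℝ)..1, (D.S (seg t b s)).im) /
      (D.A b - D.A t)

/-- GAPLB: lower bounds for the gap -/
def StmGAPLB : Prop := ∀ (D : Dat) (z : ℝ) (t b : ℂ), 0 < z → 0 ≤ t.im → 0 ≤ b.im →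
  D.den z t = 0 → D.den z b = 0 → D.A t = Real.pi → b ≠ t →
  (0 < t.im ∨ 0 < b.im ∨ t.re * b.re < 0) →
  (∀ σ : ℝ, 0 ≤ σ → (∀ s ∈ Icc (0:ℝ) (1/2), σ ≤ (D.S (seg t b s)).im) →
    ‖Complex.log b - Complex.log t‖ ^ 2 * σ / (2 * Real.pi * ((D.n : ℝ) + D.r)) ≤
      Real.log ‖b‖ - Real.log ‖t‖) ∧
  (∀ M : ℝ, (∀ s ∈ Icc (0:ℝ) 1, ‖D.S (seg t b s)‖ ≤ M) →
    2 * Real.pi ≤ M * ‖Complex.log b - Complex.log t‖)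

/-- LIMB: the limit at `θ = 0`, simple smallest zero -/
def StmLIMB : Prop := ∀ (D : Dat) (tau : ℝ → ℝ) (j₀ : Fin D.n), D.Main → D.IsCurve tau →
  (∀ j, j ≠ j₀ → D.a j₀ < D.a j) →
  ∃ x₀ : ℝ, D.a j₀ < x₀ ∧ (∀ j, j ≠ j₀ → x₀ < D.a j) ∧ D.S (x₀ : ℂ) = 0 ∧
    Tendsto (pt tau) (𝓝[Ioo 0 D.thm \ {0}] 0) (𝓝 (x₀ : ℂ))

/-- LIMM: the limit at `θ = 0`, multiple smallest zero -/
def StmLIMM : Prop := ∀ (D : Dat) (tau : ℝ → ℝ) (j₀ j₁ : Fin D.n), D.IsCurve tau →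
  j₀ ≠ j₁ → D.a j₀ = D.a j₁ → (∀ j, D.a j₀ ≤ D.a j) →
  Tendsto (pt tau) (𝓝[Ioo 0 D.thm \ {0}] 0) (𝓝 (D.a j₀ : ℂ)) ∧
    ∃ ε > 0, ∃ c > 0, ∀ θ ∈ Ioo 0 D.thm, θ < ε → c * ‖pt tau θ - (D.a j₀ : ℂ)‖ ≤ θ

/-- LIM1: the limit at `θ = π`, `r = 1` -/
def StmLIM1 : Prop := ∀ (D : Dat) (tau : ℝ → ℝ), D.Main → D.IsCurve tau → D.r = 1 →
  ∃ x₀ : ℝ, 0 < x₀ ∧ D.S (-(x₀ : ℂ)) = 0 ∧
    Tendsto (pt tau) (𝓝[Ioo 0 D.thm \ {D.thm}] D.thm) (𝓝 (-(x₀ : ℂ)))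

/-- LIM2: the limit at `θ = π / r`, `r ≥ 2` -/
def StmLIM2 : Prop := ∀ (D : Dat) (tau : ℝ → ℝ), D.IsCurve tau → 2 ≤ D.r →
  Tendsto tau (𝓝[<] D.thm) (𝓝 0) ∧ ∃ K > 0, ∀ θ ∈ Ioo 0 D.thm, D.thm - θ ≤ K * tau θ

/-- LIM0: the limit at `θ = π - π / n`, `r = 0` -/
def StmLIM0 : Prop := ∀ (D : Dat) (tau : ℝ → ℝ), D.Main → D.IsCurve tau → D.r = 0 →
  Tendsto tau (𝓝[<] D.thm) atTop ∧ ∃ K > 0, ∀ θ ∈ Ioo 0 D.thm, D.thm - θ ≤ K / tau θ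

/-- ZINJ -/
def StmZINJ : Prop := ∀ (D : Dat) (tau : ℝ → ℝ), D.IsCurve tau →
  ContinuousOn (D.zz tau) (Ioo 0 D.thm) ∧ InjOn (D.zz tau) (Ioo 0 D.thm) ∧
    (∀ θ ∈ Ioo 0 D.thm, 0 < D.zz tau θ ∧ D.den (D.zz tau θ) (pt tau θ) = 0 ∧
      0 < (pt tau θ).im ∧
      ∀ b : ℂ, D.den (D.zz tau θ) b = 0 → b = pt tau θ ∨ b = (starRingEnd ℂ) (pt tau θ) ∨
        tau θ < ‖b‖)

/-- PF -/
def StmPF : Prop := ∀ (E R : ℂ[X]) (Z : Finset ℂ) (ρ B : ℝ) (m : ℕ), 0 < ρ → E.eval 0 ≠ 0 →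
  (∀ b ∈ Z, E.eval b = 0 ∧ E.derivative.eval b ≠ 0 ∧ ‖b‖ < ρ) →
  (∀ t : ℂ, ‖t‖ ≤ ρ → E.eval t = 0 → t ∈ Z) →
  (∀ t : ℂ, ‖t‖ = ρ → ‖R.eval t / E.eval t‖ ≤ B) →
  ‖PowerSeries.coeff m ((R : PowerSeries ℂ) * (E : PowerSeries ℂ)⁻¹) +
      ∑ b ∈ Z, R.eval b / (E.derivative.eval b * b ^ (m + 1))‖ ≤
    (ρ⁻¹) ^ m * (B + ∑ b ∈ Z, ‖R.eval b / E.derivative.eval b‖ / (ρ - ‖b‖))

/-- PFZ: the same with all roots, exact -/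
def StmPFZ : Prop := ∀ (E R : ℂ[X]) (m : ℕ), E.eval 0 ≠ 0 → R.natDegree < m →
  (∀ b : ℂ, E.eval b = 0 → E.derivative.eval b ≠ 0) →
  PowerSeries.coeff m ((R : PowerSeries ℂ) * (E : PowerSeries ℂ)⁻¹) =
    - ∑ b ∈ E.roots.toFinset, R.eval b / (E.derivative.eval b * b ^ (m + 1))

/-- EST -/
def StmEST : Prop := ∀ (D : Dat) (R : ℝ[X]) (tau : ℝ → ℝ) (θ₀ : ℝ), D.IsCurve tau →
  D.Near R tau θ₀ → D.LC R tau θ₀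

/-- ESTZ -/
def StmESTZ : Prop := ∀ (D : Dat) (R : ℝ[X]) (tau : ℝ → ℝ) (θ₀ : ℝ), D.IsCurve tau →
  D.Near0 R tau θ₀ → D.LC R tau θ₀

/-- LOW -/
def StmLOW : Prop := ∀ (D : Dat) (R : ℝ[X]) (tau : ℝ → ℝ) (θ₀ : ℝ) (t₀ : ℂ), D.IsCurve tau →
  R ≠ 0 → t₀ ≠ 0 → t₀ = (‖t₀‖ : ℂ) * Complex.exp ((θ₀ : ℂ) * Complex.I) →
  Tendsto (pt tau) (𝓝[Ioo 0 D.thm \ {θ₀}] θ₀) (𝓝 t₀) →
  ∃ ε > 0, ∃ c > 0, ∃ κ : ℕ, ∀ θ ∈ Ioo 0 D.thm, 0 < |θ - θ₀| → |θ - θ₀| ≤ ε →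
    c * |θ - θ₀| ^ κ ≤ ‖D.F R (pt tau θ)‖

/-- TYPE1 -/
def StmTYPE1 : Prop := ∀ (D : Dat) (R : ℝ[X]) (tau : ℝ → ℝ) (θ₀ : ℝ) (t₀ : ℂ) (z₀ : ℝ),
  D.IsCurve tau → R ≠ 0 → 0 < z₀ → t₀ ≠ 0 → 0 ≤ t₀.im →
  t₀ = (‖t₀‖ : ℂ) * Complex.exp ((θ₀ : ℂ) * Complex.I) →
  Tendsto (pt tau) (𝓝[Ioo 0 D.thm \ {θ₀}] θ₀) (𝓝 t₀) →
  D.den z₀ t₀ = 0 →
  (∀ b : ℂ, D.den z₀ b = 0 → ‖b‖ ≤ ‖t₀‖ → b = t₀ ∨ b = (starRingEnd ℂ) t₀) →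
  (t₀.im = 0 → aeval t₀ D.L = 0 ∧ aeval t₀ (derivative D.L) ≠ 0) →
  D.Near R tau θ₀

/-- LCA: interior points -/
def StmLCA : Prop := ∀ (D : Dat) (R : ℝ[X]) (tau : ℝ → ℝ), D.IsCurve tau → R ≠ 0 →
  ∀ θ₀ ∈ Ioo 0 D.thm, D.Near R tau θ₀

/-- LCB: `θ₀ = 0`, the smallest zero of `Q` is simple -/
def StmLCB : Prop := ∀ (D : Dat) (R : ℝ[X]) (tau : ℝ → ℝ), D.Main → D.IsCurve tau → R ≠ 0 →
  (∃ j₀, ∀ j, j ≠ j₀ → D.a j₀ < D.a j) → D.Near R tau 0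

/-- LCM: `θ₀ = 0`, the smallest zero of `Q` is multiple -/
def StmLCM : Prop := ∀ (D : Dat) (R : ℝ[X]) (tau : ℝ → ℝ), D.IsCurve tau → R ≠ 0 →
  (∃ j₀ j₁, j₀ ≠ j₁ ∧ D.a j₀ = D.a j₁ ∧ ∀ j, D.a j₀ ≤ D.a j) → D.Near R tau 0

/-- LC1: `r = 1`, `θ₀ = π` -/
def StmLC1 : Prop := ∀ (D : Dat) (R : ℝ[X]) (tau : ℝ → ℝ), D.Main → D.IsCurve tau → R ≠ 0 →
  D.r = 1 → D.Near R tau D.thm

/-- LC2: `r ≥ 2`, `θ₀ = π / r`, `t → 0` -/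
def StmLC2 : Prop := ∀ (D : Dat) (R : ℝ[X]) (tau : ℝ → ℝ), D.IsCurve tau → R ≠ 0 →
  2 ≤ D.r → D.Near R tau D.thm

/-- LC0: `r = 0`, `θ₀ = π - π / n`, `t → ∞` -/
def StmLC0 : Prop := ∀ (D : Dat) (R : ℝ[X]) (tau : ℝ → ℝ), D.Main → D.IsCurve tau → R ≠ 0 →
  D.r = 0 → D.Near0 R tau D.thm

/-- LIFT: local continuous bounded argument of `F(t(θ))` -/
def StmLIFT : Prop := ∀ (D : Dat) (R : ℝ[X]) (tau : ℝ → ℝ) (θ₀ : ℝ), D.IsCurve tau → R ≠ 0 →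
  ∃ ε > 0, ∃ B : ℝ, ∃ ψ : ℝ → ℝ,
    ContinuousOn ψ {θ | θ ∈ Ioo 0 D.thm ∧ 0 < |θ - θ₀| ∧ |θ - θ₀| < ε} ∧
    ∀ θ ∈ Ioo 0 D.thm, 0 < |θ - θ₀| → |θ - θ₀| < ε → |ψ θ| ≤ B ∧ D.F R (pt tau θ) ≠ 0 ∧
      D.F R (pt tau θ) = (‖D.F R (pt tau θ)‖ : ℂ) * Complex.exp ((ψ θ : ℂ) * Complex.I)

/-- COUNT -/
def StmCOUNT : Prop := ∀ (f ψ : ℝ → ℝ) (a b B : ℝ) (m : ℕ), a < b →
  ContinuousOn f (Icc a b) → ContinuousOn ψ (Icc a b) → (∀ θ ∈ Icc a b, |ψ θ| ≤ B) →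
  (∀ θ ∈ Icc a b, ∀ k : ℤ, (m : ℝ) * θ - ψ θ = (k : ℝ) * Real.pi → 0 < (-1 : ℝ) ^ k * f θ) →
  ∃ Z : Finset ℝ, (∀ x ∈ Z, a < x ∧ x < b ∧ f x = 0) ∧
    (m : ℝ) * (b - a) / Real.pi - 2 * B / Real.pi - 3 ≤ (Z.card : ℝ)

/-- GLOB -/
def StmGLOB : Prop := ∀ (T : ℝ) (Zs : ℕ → Set ℝ), 0 < T →
  (∀ θ₀ ∈ Icc 0 T, ∃ ε > 0, (∀ b, θ₀ < b → b < θ₀ + ε → b ≤ T → Good Zs θ₀ b) ∧
    (∀ a, a < θ₀ → θ₀ - ε < a → 0 ≤ a → Good Zs a θ₀)) → Good Zs 0 T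

/-- LOCAL: from `LC` and the lift to `Good` -/
def StmLOCAL : Prop := ∀ (D : Dat) (R : ℝ[X]) (tau : ℝ → ℝ) (θ₀ : ℝ), D.IsCurve tau → R ≠ 0 →
  θ₀ ∈ Icc 0 D.thm → D.LC R tau θ₀ →
  ∃ ε > 0, (∀ b, θ₀ < b → b < θ₀ + ε → b ≤ D.thm →
      Good (fun m => {θ | θ ∈ Ioo 0 D.thm ∧ D.P R m (D.zz tau θ) = 0}) θ₀ b) ∧
    (∀ a, a < θ₀ → θ₀ - ε < a → 0 ≤ a →
      Good (fun m => {θ | θ ∈ Ioo 0 D.thm ∧ D.P R m (D.zz tau θ) = 0}) a θ₀)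

/-- DEG: degree bound; `H_m = D_z(0)^(m+1) P_m` -/
def StmDEG : Prop := ∀ (D : Dat) (R : ℝ[X]), ∃ H : ℕ → ℝ[X], ∀ m : ℕ,
  ((H m).natDegree : ℝ) ≤ (m : ℝ) * D.thm / Real.pi + R.natDegree ∧
  coefP D.Q D.r (lift R) m * (algebraMap ℝ[X] (RatFunc ℝ) D.q0) ^ (m + 1) =
    algebraMap ℝ[X] (RatFunc ℝ) (H m) ∧
  (∀ z : ℝ, 0 < z → 0 < D.q0.eval z ∧ D.P R m z * (D.q0.eval z) ^ (m + 1) = (H m).eval z)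

/-- PCONT -/
def StmPCONT : Prop := ∀ (D : Dat) (R : ℝ[X]) (m : ℕ), ContinuousOn (D.P R m) (Ioi 0)

/-- RED: reduction to a numerator which does not depend on `z` -/
def StmRED : Prop := ∀ (D : Dat) (N : ℝ[X][X]), ∃ (R : ℝ[X]) (s m₀ : ℕ), ∀ m : ℕ, m₀ ≤ m →
  coefP D.Q D.r N m = coefP D.Q D.r (lift R) (m + s)

/-- N11: the case `n = r = 1` -/
def StmN11 : Prop := ∀ (D : Dat) (R : ℝ[X]), D.n = 1 → D.r = 1 → ∀ (m : ℕ) (H : ℝ[X]),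
  coefP D.Q D.r (lift R) m * (algebraMap ℝ[X] (RatFunc ℝ) D.q0) ^ (m + 1) =
    algebraMap ℝ[X] (RatFunc ℝ) H → H ≠ 0 → out H ≤ R.natDegree

/-- ROOT: counting roots -/
def StmROOT : Prop := (∀ H : ℝ[X], H ≠ 0 → out H + posr H ≤ H.natDegree) ∧
  (∀ G H : ℝ[X], H ≠ 0 → G ∣ H → out G ≤ out H)

/-- DAT: from `Q` to the data -/
def StmDAT : Prop := ∀ (Q : ℝ[X]) (r : ℕ), 0 < Q.eval 0 → 0 < Q.natDegree →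
  (∀ w ∈ (Q.map (algebraMap ℝ ℂ)).roots, w.im = 0 ∧ 0 < w.re) →
  ∃ D : Dat, D.Q = Q ∧ D.r = r

/-- POS: the number of positive roots in the main case -/
def StmPOS : Prop := ∀ (D : Dat) (R : ℝ[X]), D.Main → R ≠ 0 → ∃ K : ℝ, ∀ (m : ℕ) (H : ℝ[X]),
  H ≠ 0 → (∀ z : ℝ, 0 < z → ∃ e : ℝ, 0 < e ∧ D.P R m z * e = H.eval z) →
  (m : ℝ) * D.thm / Real.pi - K ≤ (posr H : ℝ)

/-- FIN: the final statement -/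
def StmFIN : Prop := ∀ (Q : ℝ[X]) (r : ℕ) (N : ℝ[X][X]), 0 < Q.eval 0 → 0 < Q.natDegree →
  (∀ w ∈ (Q.map (algebraMap ℝ ℂ)).roots, w.im = 0 ∧ 0 < w.re) →
  ∃ K : ℕ, ∀ m : ℕ, coefP Q r N m ≠ 0 → out (coefP Q r N m).num < K

end Pool.Agent.T6.H48.ZZ
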